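import Pool.Agent.R922.HK.Stm

/-! HK-AAM: type AA and the largest label. -/

namespace R922.HK

namespace AAMaux

theorem T_add (k m : ℕ) : T (k + m) = T k + T m + m * k := by
  induction m with
  | zero => simp [T]
  | succ m ih => rw [← add_assoc, T_succ, ih, T_succ]; ring

/-- window inside a block -/
theorem diff_block (N i m u : ℕ) (h : m ≤ al u) :
    A N i (u + m) + (u - T (N - i)) = A N i u + m * N + T m + m * J u + (u + m - T (N - i)) := by
  have h1 := al_add_J u
  have e1 := A_block N i (X_pos u) (show J u ≤ X u by omega)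
  have e2 := A_block N i (X_pos u) (show J u + m ≤ X u by omega)
  have h2 := pos_eq u
  rw [← add_assoc, h2] at e2
  rw [h2] at e1
  rw [e1, e2, T_add]
  ring

theorem card_le_of_al {S : Finset ℕ} {a b : ℕ} (hinj : ∀ u ∈ S, ∀ v ∈ S, al u = al v → u = v)
    (h : ∀ u ∈ S, a ≤ al u ∧ al u ≤ b) : S.card ≤ b + 1 - a := by
  have h1 : S.card ≤ (Finset.Icc a b).card := by
    apply Finset.card_le_card_of_injOn al
    · intro u hu
      have := h u hu
      rw [Finset.mem_coe, Finset.mem_Icc]
      exact this
    · intro u hu v hv huv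
      exact hinj u hu v hv huv
  rwa [Nat.card_Icc] at h1

/-- label `N` forces `u = T N` -/
theorem al_N {N i u : ℕ} (hi : i < N) (hu : u ≤ U N i) (h : al u = N) :
    X u = N ∧ J u = 0 ∧ u = T N := by
  have h1 := X_le hi hu
  have h2 := al_add_J u
  have h3 := pos_eq u
  have h4 : X u = N := by omega
  have h5 : J u = 0 := by omega
  refine ⟨h4, h5, ?_⟩
  rw [h4, h5] at h3
  omega

theorem diff_N {N i m u : ℕ} (hi : i < N) (hm : m ≤ N) (hu : u ≤ U N i) (h : al u = N) :
    A N i (u + m) = A N i u + m * N + T m + m := by
  obtain ⟨h1, h2, h3⟩ := al_N hi hu h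
  have h4 := diff_block N i m u (by omega)
  rw [h2] at h4
  have h5 : T (N - i) ≤ T N := T_mono (by omega)
  rw [h3] at h4 ⊢
  omega

end AAMaux

open AAMaux

theorem AAlt (h : P_injAA) : P_AAlt := by
  intro N i m w hi hm hw
  have h1 : (AA N i m (m * N + w)).card ≤ (m - 1) + 1 - 1 := by
    apply card_le_of_al
    · intro u hu v hv huv
      exact h N i m _ u v (by omega) hu hv huv
    · intro u hu
      refine ⟨al_pos u, ?_⟩
      rw [mem_AA] at hu
      by_contra hc
      have h2 := diff_block N i m u (by omega)
      have h3 := hu.2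
      have h4 : 0 ≤ m * J u := Nat.zero_le _
      omega
  omega

theorem AAeq (h : P_injAA) : P_AAeq := by
  intro N i m hi hm
  have h1 : (AA N i m (m * N + T m)).card ≤ (max (m - 1) (N - i - 1)) + 1 - 1 := by
    apply card_le_of_al
    · intro u hu v hv huv
      exact h N i m _ u v (by omega) hu hv huv
    · intro u hu
      refine ⟨al_pos u, ?_⟩
      rw [mem_AA] at hu
      by_contra hc
      have hc1 : m - 1 < al u := lt_of_le_of_lt (le_max_left _ _) (not_le.mp hc)
      have hc2 : N - i - 1 < al u := lt_of_le_of_lt (le_max_right _ _) (not_le.mp hc)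
      have h2 := diff_block N i m u (by omega)
      have h3 := hu.2
      have h4 : m * J u = 0 := by omega
      have h5 : J u = 0 := by
        rcases Nat.mul_eq_zero.mp h4 with h5 | h5
        · omega
        · exact h5
      have h6 : u + m ≤ T (N - i) := by omega
      have h7 := al_add_J u
      have h8 := pos_eq u
      have h9 : T (N - i) ≤ T (X u) := T_mono (by omega)
      omega
  omega

theorem BAge (h : P_injBA) : P_BAge := by
  intro N i m w hi hm hmN hw
  have h1 : ((BA N i m (m * N + w)).filter (fun u => 2 ≤ al u)).card ≤ (N - 1) + 1 - 2 := by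
    apply card_le_of_al
    · intro u hu v hv huv
      rw [Finset.mem_filter] at hu hv
      exact h N i m _ u v (by omega) hu.1 hv.1 hu.2 huv
    · intro u hu
      rw [Finset.mem_filter, mem_BA] at hu
      obtain ⟨⟨h2, h3⟩, h4⟩ := hu
      refine ⟨h4, ?_⟩
      have h5 := al_le hi (show u ≤ U N i by omega)
      by_contra hc
      have h6 : al u = N := by omega
      have h7 := diff_N hi (show m ≤ N by omega) (show u ≤ U N i by omega) h6
      have h8 := al_N hi (show u ≤ U N i by omega) h6
      unfold B at h3
      rw [h8.1] at h3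
      omega
  omega

theorem AAodd (h : P_injAA) : P_AAodd := by
  intro N i m s hi hm hmN hs
  have h1 : (AA N i m s).card ≤ (N - 1) + 1 - 1 := by
    apply card_le_of_al
    · intro u hu v hv huv
      exact h N i m _ u v (by omega) hu hv huv
    · intro u hu
      rw [mem_AA] at hu
      obtain ⟨h2, h3⟩ := hu
      refine ⟨al_pos u, ?_⟩
      have h5 := al_le hi (show u ≤ U N i by omega)
      by_contra hc
      have h6 : al u = N := by omega
      have h7 := diff_N hi (show m ≤ N by omega) (show u ≤ U N i by omega) h6
      have h8 := T_two m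
      obtain ⟨k, rfl⟩ : ∃ k, m = k + 2 := ⟨m - 2, by omega⟩
      have h9 : 2 * (k + 2) - 1 = 2 * k + 3 := by omega
      rw [h9] at hs
      have h10 : (k + 2) * N + T (k + 2) + (k + 2) = s := by omega
      have h11 : (k + 1) * (2 * (k + 2)) ≤ (k + 1) * N := Nat.mul_le_mul_left _ hmN
      nlinarith
  omega

theorem AA1s : P_AA1s := by
  intro N i hi hN
  have hsub : AA N i 1 (2 * N - 1) ⊆ {T (N - 1) + (N - 2), T N + (N - 2)} := by
    intro u hu
    rw [mem_AA] at hu
    obtain ⟨h1, h2⟩ := hu
    rw [A_succ] at h2
    have h3 := pos_eq u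
    have h4 := J_lt u
    have h5 := X_le hi (show u ≤ U N i by omega)
    have h6 := dl_le N i u
    have h7 : J u + dl N i u = N - 1 := by omega
    have h8 : J u = N - 2 := by
      by_contra hc
      have h9 : J u = N - 1 := by omega
      have h10 : X u = N := by omega
      rw [h10, h9] at h3
      unfold U at h1
      omega
    rw [Finset.mem_insert, Finset.mem_singleton]
    rcases Nat.lt_or_ge (X u) N with h9 | h9
    · left
      have h10 : X u = N - 1 := by omega
      rw [← h10, ← h8]; exact h3.symm
    · right
      have h10 : X u = N := by omega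
      rw [← h8]
      rw [h10] at h3
      exact h3.symm
  exact (Finset.card_le_card hsub).trans Finset.card_le_two

end R922.HK
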