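import Pool.Agent.R922.HK.Stm

/-!
# MP_6a97ae_co, piece HK-BA1: label 1 for the type BA
-/

set_option autoImplicit false

namespace R922.HK

namespace PBA1

/-- the part of `A` without the linear terms -/
def G (u : ℕ) : ℕ := V (X u) + T (J u)

theorem G_succ (u : ℕ) : G (u + 1) = G u + J u := by
  unfold G
  rcases step u with ⟨_, h2, h3⟩ | ⟨h1, h2, h3⟩
  · rw [h2, h3, T_succ]; omega
  · rw [h2, h3, V_succ, T_zero, ← h1, T_succ]; omega

theorem J_le {y : ℕ} (hy : 1 ≤ y) (j : ℕ) : J (T y + j) ≤ j := by
  have h1 := pos_eq (T y + j)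
  have h2 := X_mono (show T y + 0 ≤ T y + j by omega)
  rw [X_block (show 0 < y by omega)] at h2
  have h3 := T_mono h2
  omega

theorem G_eq {y j : ℕ} (hy : 1 ≤ y) (hj : j ≤ y) : G (T y + j) = V y + T j := by
  induction j with
  | zero =>
    unfold G
    rw [X_block (show 0 < y by omega), J_block (show 0 < y by omega)]
  | succ j ih =>
    rw [← add_assoc, G_succ, ih (by omega), J_block (show j < y by omega), T_succ]
    omega

theorem G_le {y : ℕ} (hy : 1 ≤ y) (j : ℕ) : G (T y + j) ≤ V y + T j := by
  induction j with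
  | zero => rw [G_eq hy (by omega)]
  | succ j ih =>
    have := J_le hy j
    rw [← add_assoc, G_succ, T_succ]
    omega

theorem G_lt {y j : ℕ} (hy : 1 ≤ y) (hj : y < j) : G (T y + j) < V y + T j := by
  induction j with
  | zero => omega
  | succ j ih =>
    rw [← add_assoc, G_succ, T_succ]
    rcases Nat.lt_or_ge y j with h | h
    · have := J_le hy j
      have := ih h
      omega
    · have e : j = y := by omega
      subst e
      have h1 := G_le hy j
      have h2 : J (T j + j) = 0 := by
        have : T j + j = T (j + 1) + 0 := by rw [T_succ]; omega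
        rw [this]; exact J_block (by omega)
      omega

theorem u_eq {u : ℕ} (h : al u = 1) : u + 1 = T (X u + 1) := by
  have h1 := pos_eq u
  have h2 := al_add_J u
  rw [T_succ]; omega

theorem key {N i m s u : ℕ} (hm : 1 ≤ m) (h : A N i (u + m) = B N i u + s) (hal : al u = 1) :
    G (T (X u + 1) + (m - 1)) + (u + m - T (N - i)) + m * N =
      V (X u + 1) + 1 + (u - T (N - i)) + s := by
  have h1 := u_eq hal
  have h2 : u + m = T (X u + 1) + (m - 1) := by omega
  have h3 := al_add_J u
  rw [← h2]
  unfold B A at h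
  unfold G
  rw [V_succ]
  have h4 : N * (u + m) = N * u + m * N := by ring
  have h5 : T (X u) = T (J u) + J u := by
    have : X u = J u + 1 := by omega
    rw [this, T_succ]
  rw [h4] at h
  omega

theorem X_lt {N i m u : ℕ} (hi : i < N) (hm : 1 ≤ m) (hu : u + m ≤ U N i) (hal : al u = 1) :
    X u + 1 ≤ N := by
  have h1 := X_le hi (show u ≤ U N i by omega)
  have h2 := u_eq hal
  by_contra hcon
  have h3 : X u = N := by omega
  rw [h3, T_succ] at h2
  unfold U at hu
  omega

theorem X_inj {u v : ℕ} (hu : al u = 1) (hv : al v = 1) (h : X u = X v) : u = v := by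
  have h1 := u_eq hu
  have h2 := u_eq hv
  rw [h] at h1
  omega

theorem card_le {F : Finset ℕ} {a b : ℕ} (hF : ∀ u ∈ F, al u = 1 ∧ a ≤ X u ∧ X u < b) :
    F.card ≤ b - a := by
  have h := Finset.card_le_card_of_injOn (s := F) (t := Finset.Ico a b) X
    (fun u hu => by
      have := hF u hu
      simp only [Finset.coe_Ico, Set.mem_Ico]
      exact this.2)
    (fun u hu v hv h => X_inj (hF u hu).1 (hF v hv).1 h)
  simpa using h

theorem T_lt_of {a b : ℕ} (ha : 1 ≤ a) (h : a < b) : T a < T b := by
  have := T_mono (show a + 1 ≤ b by omega)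
  rw [T_succ] at this
  omega

theorem lt_of_T {a b : ℕ} (h : T a < T b) : a < b := by
  by_contra hcon
  have := T_mono (show b ≤ a by omega)
  omega

end PBA1

open PBA1

theorem BA1gt : P_BA1gt := by
  intro N i m w hi hm hmN hw
  rw [Finset.card_eq_zero, Finset.filter_eq_empty_iff]
  intro u hu hal
  rw [mem_BA] at hu
  have h1 := key (by omega) hu.2 hal
  have h2 := G_le (show 1 ≤ X u + 1 by omega) (m - 1)
  have h3 : T m = T (m - 1) + (m - 1) := by
    obtain ⟨k, rfl⟩ : ∃ k, m = k + 1 := ⟨m - 1, by omega⟩
    rw [T_succ]; simp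
  omega

theorem BA1eq : P_BA1eq := by
  intro N i m hi hm hmN
  have h3 : T m = T (m - 1) + (m - 1) := by
    obtain ⟨k, rfl⟩ : ∃ k, m = k + 1 := ⟨m - 1, by omega⟩
    rw [T_succ]; simp
  have hc : ((BA N i m (m * N + T m)).filter (fun u => al u = 1)).card ≤
      N - max (m - 2) (N - i) := by
    apply card_le
    intro u hu
    rw [Finset.mem_filter, mem_BA] at hu
    obtain ⟨⟨hu1, hu2⟩, hal⟩ := hu
    have h1 := key (by omega) hu2 hal
    have h2 := G_le (show 1 ≤ X u + 1 by omega) (m - 1)
    have h4 := X_lt hi (by omega) hu1 hal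
    refine ⟨hal, ?_, by omega⟩
    have h5 : m - 2 ≤ X u := by
      by_contra hcon
      have := G_lt (show 1 ≤ X u + 1 by omega) (show X u + 1 < m - 1 by omega)
      omega
    have h6 : T (N - i) ≤ u := by
      by_contra hcon
      omega
    have h7 := X_mono (show T (N - i) + 0 ≤ u by omega)
    rw [X_block (show 0 < N - i by omega)] at h7
    exact max_le h5 h7
  refine hc.trans ?_
  omega

theorem BA1lt : P_BA1lt := by
  intro N i m w hi hm hmN hw
  have h3 : T m = T (m - 1) + (m - 1) := by
    obtain ⟨k, rfl⟩ : ∃ k, m = k + 1 := ⟨m - 1, by omega⟩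
    rw [T_succ]; simp
  by_cases hex : ∃ u0 ∈ (BA N i m (m * N + w)).filter (fun u => al u = 1), m - 2 ≤ X u0
  · obtain ⟨u0, hu0, hx0⟩ := hex
    rw [Finset.mem_filter, mem_BA] at hu0
    obtain ⟨⟨hu01, hu02⟩, hal0⟩ := hu0
    have k0 := key (by omega) hu02 hal0
    rw [G_eq (show 1 ≤ X u0 + 1 by omega) (show m - 1 ≤ X u0 + 1 by omega)] at k0
    have hc : ((BA N i m (m * N + w)).filter (fun u => al u = 1)).card ≤
        (N - 1) - max (m - 2) 1 := by
      apply card_le
      intro u hu
      rw [Finset.mem_filter, mem_BA] at hu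
      obtain ⟨⟨hu1, hu2⟩, hal⟩ := hu
      have h1 := key (by omega) hu2 hal
      have h2 := G_le (show 1 ≤ X u + 1 by omega) (m - 1)
      have h4 := X_lt hi (by omega) hu1 hal
      have h5 : m - 2 ≤ X u := by
        by_contra hcon
        have h6 := G_lt (show 1 ≤ X u + 1 by omega) (show X u + 1 < m - 1 by omega)
        have h7 : u < u0 := by
          have e1 := u_eq hal
          have e2 := u_eq hal0
          have e3 := T_lt_of (show 1 ≤ X u + 1 by omega) (show X u + 1 < X u0 + 1 by omega)
          omega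
        omega
      refine ⟨hal, max_le h5 (X_pos u), ?_⟩
      rw [G_eq (show 1 ≤ X u + 1 by omega) (show m - 1 ≤ X u + 1 by omega)] at h1
      by_contra hcon
      have h6 : X u + 1 = N := by omega
      have h7 := u_eq hal
      rw [h6] at h7
      have h8 : u < T (N - i) := by
        by_contra hcon2
        omega
      have h9 : T N ≤ T (N - i) := by omega
      have h10 : i = 0 := by
        by_contra hi0
        have := T_lt_of (show 1 ≤ N - i by omega) (show N - i < N by omega)
        omega
      unfold U at hu1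
      omega
    refine hc.trans ?_
    omega
  · push Not at hex
    have hc : ((BA N i m (m * N + w)).filter (fun u => al u = 1)).card ≤ (m - 2) - 1 := by
      apply card_le
      intro u hu
      have h1 := hex u hu
      rw [Finset.mem_filter] at hu
      exact ⟨hu.2, X_pos u, h1⟩
    omega

theorem BA2s : P_BA2s := by
  intro N i hi hN
  have hc : ((BA N i 2 (2 * N - 1)).filter (fun u => al u = 1)).card ≤ (N - 1) - 1 := by
    apply card_le
    intro u hu
    rw [Finset.mem_filter, mem_BA] at hu
    obtain ⟨⟨hu1, hu2⟩, hal⟩ := hu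
    have h1 := key (by omega) hu2 hal
    rw [G_eq (show 1 ≤ X u + 1 by omega) (show 2 - 1 ≤ X u + 1 by omega)] at h1
    have e1 : T (2 - 1) = 0 := rfl
    rw [e1] at h1
    have h2 := u_eq hal
    have h3 : T (X u + 1) < T (N - i) := by omega
    have h4 := lt_of_T h3
    exact ⟨hal, X_pos u, by omega⟩
  omega

end R922.HK
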