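import Pool.Agent.R922.HK.Stm

/-! HK-BB1: at most two windows with label 1 for the type BB. -/

namespace R922.HK

namespace BB1aux

/-- the index with label 1 in block `x` -/
def u1 (x : ℕ) : ℕ := T x + (x - 1)

/-- the difference of `B` along the window of length `m` at `u1 x` -/
def ff (N i m x : ℕ) : ℤ := (B N i (u1 x + m) : ℤ) - B N i (u1 x)

theorem u1_succ {x : ℕ} (hx : 1 ≤ x) : u1 (x + 1) = u1 x + (x + 1) := by
  unfold u1; rw [T_succ]; omega

theorem X_u1 {x : ℕ} (hx : 1 ≤ x) : X (u1 x) = x := X_block (by omega)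

theorem gain (hW : P_W) (N i m : ℕ) (hm : 1 ≤ m) {x : ℕ} (hx : 1 ≤ x) :
    A N i (u1 x + (x + 1)) + A N i (u1 x + m) + 1 ≤
      A N i (u1 x + m + (x + 1)) + A N i (u1 x) := by
  have h := hW N i x 1 m le_rfl hx
  have h1 : min 1 m = 1 := by omega
  rw [h1] at h
  exact h

theorem mono1 (hW : P_W) (N i m : ℕ) (hm : 1 ≤ m) {x : ℕ} (hx : 1 ≤ x) :
    ff N i m x ≤ ff N i m (x + 1) := by
  have h := gain hW N i m hm hx
  have h2 : X (u1 x + m) ≤ X (u1 x + m + (x + 1)) := X_mono (by omega)
  have h3 := X_u1 hx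
  have h4 := X_u1 (show 1 ≤ x + 1 by omega)
  unfold ff B
  rw [h3, h4, u1_succ hx]
  have e : u1 x + (x + 1) + m = u1 x + m + (x + 1) := by omega
  rw [e]
  push_cast
  omega

theorem eq_case (hW : P_W) (hW1 : P_W1) (N i m : ℕ) (hm : 1 ≤ m) {x : ℕ} (hx : 1 ≤ x)
    (he : ff N i m (x + 1) ≤ ff N i m x) :
    J (u1 x + m) = 0 ∧ x + 1 < X (u1 x + m) := by
  have h := gain hW N i m hm hx
  have h2 : X (u1 x + m) ≤ X (u1 x + m + (x + 1)) := X_mono (by omega)
  have h3 := X_u1 hx
  have h4 := X_u1 (show 1 ≤ x + 1 by omega)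
  unfold ff B at he
  rw [h3, h4, u1_succ hx] at he
  have e : u1 x + (x + 1) + m = u1 x + m + (x + 1) := by omega
  rw [e] at he
  push_cast at he
  have h5 : X (u1 x + m + (x + 1)) = X (u1 x + m) := by omega
  have h6 : A N i (u1 x + m + (x + 1)) + A N i (u1 x)
      ≤ A N i (u1 x + (x + 1)) + A N i (u1 x + m) + 1 := by omega
  have p1 := pos_eq (u1 x + m)
  have p2 := pos_eq (u1 x + m + (x + 1))
  have p3 := J_lt (u1 x + m + (x + 1))
  rw [h5] at p2 p3
  have h7 : J (u1 x + m) + (x + 1) < X (u1 x + m) := by omega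
  refine ⟨?_, by omega⟩
  by_contra hk
  have h8 := hW1 N i x m (X (u1 x + m)) (J (u1 x + m)) hx (by omega) (by omega) (by omega)
    (by change u1 x + m = _; omega)
  have h8' : A N i (u1 x + (x + 1)) + A N i (u1 x + m) + 2 ≤
    A N i (u1 x + m + (x + 1)) + A N i (u1 x) := h8
  omega

theorem mono (hW : P_W) (N i m : ℕ) (hm : 1 ≤ m) {x y : ℕ} (hx : 1 ≤ x) (hxy : x ≤ y) :
    ff N i m x ≤ ff N i m y := by
  induction y, hxy using Nat.le_induction with
  | base => exact le_rfl
  | succ y hy ih => exact ih.trans (mono1 hW N i m hm (by omega))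

end BB1aux

open BB1aux in
theorem BB1 (hW : P_W) (hW1 : P_W1) : P_BB1 := by
  intro N i m s hm
  set S := (BB N i m s).filter (fun u => al u = 1) with hS
  by_cases hne : S.Nonempty
  · obtain ⟨u0, hu0, hmin⟩ := Finset.exists_min_image S X hne
    have key : ∀ u ∈ S, u = u1 (X u) ∧ ff N i m (X u) = s := by
      intro u hu
      rw [hS, Finset.mem_filter, mem_BB] at hu
      obtain ⟨⟨_, h2⟩, h3⟩ := hu
      have h4 := pos_al u
      rw [h3] at h4
      have h5 : u1 (X u) = u := h4
      refine ⟨h5.symm, ?_⟩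
      unfold ff
      rw [h5, h2]
      push_cast
      ring
    obtain ⟨k1, k2⟩ := key u0 hu0
    have hx0 := X_pos u0
    have hsub : S ⊆ {u1 (X u0), u1 (X u0 + 1)} := by
      intro u hu
      obtain ⟨l1, l2⟩ := key u hu
      have h1 := hmin u hu
      rw [Finset.mem_insert, Finset.mem_singleton]
      rcases Nat.lt_or_ge (X u) (X u0 + 2) with h2 | h2
      · rcases Nat.lt_or_ge (X u) (X u0 + 1) with h3 | h3
        · left
          have : X u = X u0 := by omega
          rw [← this]; exact l1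
        · right
          have : X u = X u0 + 1 := by omega
          rw [← this]; exact l1
      · exfalso
        have m1 := mono1 hW N i m hm hx0
        have m2 := mono1 hW N i m hm (show 1 ≤ X u0 + 1 by omega)
        have m3 := mono hW N i m hm (show 1 ≤ X u0 + 1 + 1 by omega)
          (show X u0 + 1 + 1 ≤ X u by omega)
        obtain ⟨e1, e2⟩ := eq_case hW hW1 N i m hm hx0 (by omega)
        obtain ⟨e3, e4⟩ := eq_case hW hW1 N i m hm (show 1 ≤ X u0 + 1 by omega) (by omega)
        have p1 := pos_eq (u1 (X u0) + m)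
        rw [e1] at p1
        have h5 : u1 (X u0 + 1) + m = T (X (u1 (X u0) + m)) + (X u0 + 1) := by
          rw [u1_succ hx0]; omega
        rw [h5, J_block e2] at e3
        omega
    refine (Finset.card_le_card hsub).trans ?_
    exact Finset.card_le_two
  · rw [Finset.not_nonempty_iff_eq_empty] at hne
    rw [hne]
    simp

end R922.HK
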