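import Mathlib

/-!
# Sets whose differences have bounded multiplicities (MP_6a97ae_co): definitions and core facts

The extremal set is `{A u, B u : u ≤ U}`.
-/

namespace R922.HK

/-- `T x = x (x-1) / 2`. -/
def T : ℕ → ℕ
  | 0 => 0
  | x + 1 => T x + x

/-- `V x = x (x-1) (x-2) / 6`. -/
def V : ℕ → ℕ
  | 0 => 0
  | x + 1 => V x + T x

/-- index `u` is `(X u, J u)`: block number and offset in the block -/
def st : ℕ → ℕ × ℕ
  | 0 => (1, 0)
  | u + 1 => if (st u).2 + 1 < (st u).1 then ((st u).1, (st u).2 + 1) else ((st u).1 + 1, 0)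

/-- block number -/
def X (u : ℕ) : ℕ := (st u).1

/-- offset in the block -/
def J (u : ℕ) : ℕ := (st u).2

/-- label: distance to the end of the block -/
def al (u : ℕ) : ℕ := X u - J u

/-- first family of elements of the extremal set -/
def A (N i u : ℕ) : ℕ := N * u + V (X u) + T (J u) + (u - T (N - i))

/-- second family of elements of the extremal set -/
def B (N i u : ℕ) : ℕ := A N i u + X u

/-- last index -/
def U (N i : ℕ) : ℕ := T N + i

/-- indicator of `T (N - i) ≤ u` -/
def dl (N i u : ℕ) : ℕ := if T (N - i) ≤ u then 1 else 0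

theorem T_zero : T 0 = 0 := rfl
theorem T_succ (x : ℕ) : T (x + 1) = T x + x := rfl
theorem V_zero : V 0 = 0 := rfl
theorem V_succ (x : ℕ) : V (x + 1) = V x + T x := rfl

theorem T_two (x : ℕ) : 2 * T x + x = x * x := by
  induction x with
  | zero => rfl
  | succ x ih => rw [T_succ]; nlinarith

theorem V_six (x : ℕ) : 6 * V x + 3 * x * x = x * x * x + 2 * x := by
  induction x with
  | zero => rfl
  | succ x ih =>
    rw [V_succ]
    have := T_two x
    nlinarith

theorem T_mono : Monotone T := by
  apply monotone_nat_of_le_succ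
  intro n
  rw [T_succ]; omega

theorem st_zero : st 0 = (1, 0) := rfl

theorem st_succ (u : ℕ) : st (u + 1) =
    if (st u).2 + 1 < (st u).1 then ((st u).1, (st u).2 + 1) else ((st u).1 + 1, 0) := rfl

theorem X_zero : X 0 = 1 := rfl
theorem J_zero : J 0 = 0 := rfl

theorem st_facts (u : ℕ) : T (X u) + J u = u ∧ J u < X u := by
  induction u with
  | zero => exact ⟨rfl, by decide⟩
  | succ u ih =>
    obtain ⟨h1, h2⟩ := ih
    unfold X J at *
    rw [st_succ]
    split_ifs with h
    · exact ⟨by simp only; omega, by simp only; omega⟩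
    · refine ⟨?_, by simp⟩
      simp only [T_succ]
      omega

theorem pos_eq (u : ℕ) : T (X u) + J u = u := (st_facts u).1
theorem J_lt (u : ℕ) : J u < X u := (st_facts u).2
theorem X_pos (u : ℕ) : 1 ≤ X u := by have := J_lt u; omega

/-- the step: either next offset in the same block, or start of the next block -/
theorem step (u : ℕ) :
    (J u + 1 < X u ∧ X (u + 1) = X u ∧ J (u + 1) = J u + 1) ∨
    (J u + 1 = X u ∧ X (u + 1) = X u + 1 ∧ J (u + 1) = 0) := by
  have h2 := J_lt u
  unfold X J at *
  rw [st_succ]
  split_ifs with h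
  · exact Or.inl ⟨h, rfl, rfl⟩
  · exact Or.inr ⟨by omega, rfl, rfl⟩

/-- uniqueness of the representation -/
theorem uniq {z k u : ℕ} (hk : k < z) (h : T z + k = u) : X u = z ∧ J u = k := by
  have h1 := pos_eq u
  have h2 := J_lt u
  have key : X u = z := by
    by_contra hne
    rcases Nat.lt_or_gt_of_ne hne with hlt | hlt
    · have := T_mono (show X u + 1 ≤ z by omega)
      rw [T_succ] at this
      omega
    · have := T_mono (show z + 1 ≤ X u by omega)
      rw [T_succ] at this
      omega
  refine ⟨key, ?_⟩
  rw [key] at h1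
  omega

theorem X_block {z k : ℕ} (hk : k < z) : X (T z + k) = z := (uniq hk rfl).1
theorem J_block {z k : ℕ} (hk : k < z) : J (T z + k) = k := (uniq hk rfl).2

/-- closed form of `A` (valid also at the start of the next block, `k = z`) -/
theorem A_block (N i : ℕ) {z k : ℕ} (hz : 1 ≤ z) (hk : k ≤ z) :
    A N i (T z + k) = N * (T z + k) + V z + T k + (T z + k - T (N - i)) := by
  rcases Nat.lt_or_ge k z with h | h
  · unfold A
    rw [X_block h, J_block h]
  · have hkz : k = z := le_antisymm hk h
    subst hkz
    have e : T k + k = T (k + 1) + 0 := by rw [T_succ]; omega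
    unfold A
    rw [e, X_block (show 0 < k + 1 by omega), J_block (show 0 < k + 1 by omega), V_succ, T_zero]
    omega

theorem A_zero (N i : ℕ) : A N i 0 = 0 := by
  unfold A
  rw [X_zero, J_zero]
  simp [V, T]

theorem A_succ (N i u : ℕ) : A N i (u + 1) = A N i u + N + J u + dl N i u := by
  have h1 := pos_eq u
  have h2 := J_lt u
  have e1 := A_block N i (X_pos u) (show J u ≤ X u by omega)
  have e2 := A_block N i (X_pos u) (show J u + 1 ≤ X u by omega)
  rw [← add_assoc, h1] at e2
  rw [h1] at e1
  rw [e1, e2, T_succ]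
  unfold dl
  split_ifs with h
  · have : u + 1 - T (N - i) = (u - T (N - i)) + 1 := by omega
    rw [this]; ring
  · have : u + 1 - T (N - i) = 0 := by omega
    have h' : u - T (N - i) = 0 := by omega
    rw [this, h']; ring

theorem dl_le (N i u : ℕ) : dl N i u ≤ 1 := by unfold dl; split_ifs <;> omega

theorem dl_mono (N i : ℕ) {u v : ℕ} (h : u ≤ v) : dl N i u ≤ dl N i v := by
  unfold dl; split_ifs <;> omega

theorem X_mono : Monotone X := by
  apply monotone_nat_of_le_succ
  intro n
  rcases step n with h | h <;> omega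

theorem X_le {N i u : ℕ} (hi : i < N) (hu : u ≤ U N i) : X u ≤ N := by
  have h := X_mono hu
  have : X (U N i) = N := X_block hi
  omega

theorem al_pos (u : ℕ) : 1 ≤ al u := by have := J_lt u; unfold al; omega

theorem al_le {N i u : ℕ} (hi : i < N) (hu : u ≤ U N i) : al u ≤ N := by
  have := X_le hi hu; unfold al; omega

theorem al_le_X (u : ℕ) : al u ≤ X u := by unfold al; omega

/-- an index is determined by its block and its label -/
theorem pos_al (u : ℕ) : T (X u) + (X u - al u) = u := by
  have h1 := pos_eq u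
  have h2 := J_lt u
  unfold al
  have : X u - (X u - J u) = J u := by omega
  rw [this]; exact h1

theorem al_add_J (u : ℕ) : al u + J u = X u := by
  have := J_lt u; unfold al; omega

/-- for `u < U`: the double gap `A (u+1) - A u` is at most `2 N - 1` -/
theorem J_dl_lt {N i u : ℕ} (hi : i < N) (hu : u < U N i) : J u + dl N i u ≤ N - 1 := by
  have hX := X_le hi hu.le
  have h2 := J_lt u
  have h3 := dl_le N i u
  rcases Nat.lt_or_ge (X u) N with h | h
  · omega
  · have e : X u = N := le_antisymm hX h
    have h1 := pos_eq u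
    rw [e] at h1
    unfold U at hu
    omega

/-- four types of pairs -/
def AA (N i m s : ℕ) : Finset ℕ :=
  (Finset.range (U N i + 1)).filter (fun u => u + m ≤ U N i ∧ A N i (u + m) = A N i u + s)
def BB (N i m s : ℕ) : Finset ℕ :=
  (Finset.range (U N i + 1)).filter (fun u => u + m ≤ U N i ∧ B N i (u + m) = B N i u + s)
def AB (N i m s : ℕ) : Finset ℕ :=
  (Finset.range (U N i + 1)).filter (fun u => u + m ≤ U N i ∧ B N i (u + m) = A N i u + s)
def BA (N i m s : ℕ) : Finset ℕ :=
  (Finset.range (U N i + 1)).filter (fun u => u + m ≤ U N i ∧ A N i (u + m) = B N i u + s)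

theorem mem_AA {N i m s u : ℕ} :
    u ∈ AA N i m s ↔ u + m ≤ U N i ∧ A N i (u + m) = A N i u + s := by
  unfold AA; simp only [Finset.mem_filter, Finset.mem_range]; constructor
  · exact fun h => h.2
  · exact fun h => ⟨by omega, h⟩
theorem mem_BB {N i m s u : ℕ} :
    u ∈ BB N i m s ↔ u + m ≤ U N i ∧ B N i (u + m) = B N i u + s := by
  unfold BB; simp only [Finset.mem_filter, Finset.mem_range]; constructor
  · exact fun h => h.2
  · exact fun h => ⟨by omega, h⟩
theorem mem_AB {N i m s u : ℕ} :
    u ∈ AB N i m s ↔ u + m ≤ U N i ∧ B N i (u + m) = A N i u + s := by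
  unfold AB; simp only [Finset.mem_filter, Finset.mem_range]; constructor
  · exact fun h => h.2
  · exact fun h => ⟨by omega, h⟩
theorem mem_BA {N i m s u : ℕ} :
    u ∈ BA N i m s ↔ u + m ≤ U N i ∧ A N i (u + m) = B N i u + s := by
  unfold BA; simp only [Finset.mem_filter, Finset.mem_range]; constructor
  · exact fun h => h.2
  · exact fun h => ⟨by omega, h⟩

end R922.HK
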