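import Mathlib
import Pool.Agent.R922.HK.Core

/-!
# MP_6a97ae_co (Hickerson): exact statements of the pieces. Proofs on paper: `NOTES.md`.
-/

namespace R922.HK

/-- admissible set: every positive difference `s` occurs at most `2 s` times -/
def Adm (S : Finset ℕ) : Prop :=
  ∀ s : ℕ, 1 ≤ s → ((S ×ˢ S).filter (fun p => p.2 = p.1 + s)).card ≤ 2 * s

/-! ## upper bound (HK-UB) -/

def P_UB : Prop := ∀ (n L r : ℕ) (S : Finset ℕ), S ⊆ Finset.Icc 1 (n + 1) → Adm S →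
  S.card = r + 1 → 3 * (r * (L + 1)) ≤ 3 * n + L * (L + 1) * (L + 2)

/-! ## window comparison (HK-W) -/

/-- sliding a window of length `m` starting at label `a` of block `x` to the next block -/
def P_W : Prop := ∀ N i x a m : ℕ, 1 ≤ a → a ≤ x →
  A N i (T x + (x - a) + (x + 1)) + A N i (T x + (x - a) + m) + min a m ≤
    A N i (T x + (x - a) + m + (x + 1)) + A N i (T x + (x - a))

/-- label 1, window ending in a block `z ≥ x + 2` but not at a block start: gain at least 2 -/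
def P_W1 : Prop := ∀ N i x m z k : ℕ, 1 ≤ x → x + 2 ≤ z → 1 ≤ k → k < z →
  T x + (x - 1) + m = T z + k →
  A N i (T x + (x - 1) + (x + 1)) + A N i (T x + (x - 1) + m) + 2 ≤
    A N i (T x + (x - 1) + m + (x + 1)) + A N i (T x + (x - 1))

/-! ## injectivity of the label (HK-INJ), from `P_W` -/

def P_injAA : Prop := ∀ N i m s u v : ℕ, 1 ≤ m → u ∈ AA N i m s → v ∈ AA N i m s →
  al u = al v → u = v
def P_injAB : Prop := ∀ N i m s u v : ℕ, u ∈ AB N i m s → v ∈ AB N i m s →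
  al u = al v → u = v
def P_injBA : Prop := ∀ N i m s u v : ℕ, 2 ≤ m → u ∈ BA N i m s → v ∈ BA N i m s →
  2 ≤ al u → al u = al v → u = v
def P_injBB : Prop := ∀ N i m s u v : ℕ, 1 ≤ m → u ∈ BB N i m s → v ∈ BB N i m s →
  (2 ≤ al u ∨ m ≤ 2) → al u = al v → u = v

/-! ## label 1 for the type BB (HK-BB1), from `P_W` and `P_W1` -/

def P_BB1 : Prop := ∀ N i m s : ℕ, 1 ≤ m → ((BB N i m s).filter (fun u => al u = 1)).card ≤ 2

/-! ## label 1 for the type BA, and special values (HK-BA1) -/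

def P_BA1lt : Prop := ∀ N i m w : ℕ, i < N → 2 ≤ m → 2 * m ≤ N → w < T m →
  ((BA N i m (m * N + w)).filter (fun u => al u = 1)).card ≤ N - m + 1
def P_BA1eq : Prop := ∀ N i m : ℕ, i < N → 2 ≤ m → 2 * m ≤ N →
  ((BA N i m (m * N + T m)).filter (fun u => al u = 1)).card ≤ min i (N - m + 2)
def P_BA1gt : Prop := ∀ N i m w : ℕ, i < N → 2 ≤ m → 2 * m ≤ N → T m < w →
  ((BA N i m (m * N + w)).filter (fun u => al u = 1)).card = 0
/-- `s = 2 N - 1`, `m = 2` -/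
def P_BA2s : Prop := ∀ N i : ℕ, i < N → 2 ≤ N →
  ((BA N i 2 (2 * N - 1)).filter (fun u => al u = 1)).card ≤ N - 2

/-! ## type AA, the largest label (HK-AAM); uses `P_injAA`, `P_injBA` as hypotheses -/

def P_AAlt : Prop := ∀ N i m w : ℕ, i < N → 2 ≤ m → w < T m →
  (AA N i m (m * N + w)).card ≤ m - 1
def P_AAeq : Prop := ∀ N i m : ℕ, i < N → 2 ≤ m →
  (AA N i m (m * N + T m)).card ≤ max (m - 1) (N - i - 1)
def P_BAge : Prop := ∀ N i m w : ℕ, i < N → 2 ≤ m → 2 * m ≤ N → T m ≤ w →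
  ((BA N i m (m * N + w)).filter (fun u => 2 ≤ al u)).card ≤ N - 2
/-- `s = (2 m - 1) N + ρ`: the label `N` is not used by AA -/
def P_AAodd : Prop := ∀ N i m s : ℕ, i < N → 2 ≤ m → 2 * m ≤ N → (2 * m - 1) * N ≤ s →
  (AA N i m s).card ≤ N - 1
def P_AA1s : Prop := ∀ N i : ℕ, i < N → 2 ≤ N → (AA N i 1 (2 * N - 1)).card ≤ 2

/-! ## ranges (HK-RNG) -/

def P_rngAA : Prop := ∀ N i m s u : ℕ, i < N → 1 ≤ m → u ∈ AA N i m s →
  m * N ≤ s ∧ s + 1 ≤ 2 * m * N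
def P_rngBB : Prop := ∀ N i m s u : ℕ, i < N → 1 ≤ m → u ∈ BB N i m s →
  m * N ≤ s ∧ s + m ≤ 2 * m * N + 1
def P_BB1s : Prop := ∀ N i : ℕ, i < N → (BB N i 1 (2 * N)).card ≤ 1
def P_rngAB : Prop := ∀ N i m s u : ℕ, i < N → u ∈ AB N i m s →
  m * N + al u ≤ s ∧ s + m ≤ 2 * m * N + N
def P_rngBA : Prop := ∀ N i m s u : ℕ, i < N → 1 ≤ m → u ∈ BA N i m s →
  (m - 1) * N + 1 ≤ s ∧ s + (m - 1) ≤ 2 * (m - 1) * N + N
/-- the top value of `m` for BA -/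
def P_topBA : Prop := ∀ N i m ρ u : ℕ, i < N → 1 ≤ m → ρ < N → (m = 1 → ρ + 1 < N) →
  u ∈ BA N i (m + 1) (m * N + ρ) → N + 1 ≤ al u + ρ

/-! ## small differences (HK-SMALL) -/

def P_small : Prop := ∀ N i s : ℕ, i < N → 1 ≤ s → s < N →
  (∀ m, 1 ≤ m → AA N i m s = ∅) ∧ (∀ m, 1 ≤ m → BB N i m s = ∅) ∧
  (∀ m, 1 ≤ m → AB N i m s = ∅) ∧ (∀ m, 2 ≤ m → BA N i m s = ∅) ∧
  (AB N i 0 s).card ≤ s ∧ (BA N i 1 s).card ≤ s
def P_smallN : Prop := ∀ N i : ℕ, i < N →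
  (∀ m, 2 ≤ m → AA N i m N = ∅) ∧ (∀ m, 2 ≤ m → BB N i m N = ∅) ∧
  (∀ m, 1 ≤ m → AB N i m N = ∅) ∧ (∀ m, 2 ≤ m → BA N i m N = ∅) ∧
  (AA N i 1 N).card + (BB N i 1 N).card + (AB N i 0 N).card + (BA N i 1 N).card ≤ 2 * N

/-! ## the total count (HK-SUM), from the pieces above -/

/-- total count of pairs with difference `s` -/
def tot (N i s : ℕ) : ℕ :=
  ∑ m ∈ Finset.range (U N i + 1),
    ((AA N i m s).card + (BB N i m s).card + (AB N i m s).card + (BA N i m s).card)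

def P_sum : Prop := ∀ N i s : ℕ, i < N → N < s → 2 * s < N * (N + 1) → tot N i s ≤ 2 * s

/-! ## the set (HK-SET) -/

/-- the extremal set -/
def D (N i : ℕ) : Finset ℕ :=
  (Finset.range (U N i + 1)).image (A N i) ∪ (Finset.range (U N i + 1)).image (B N i)

/-- the number of pairs of `D` with difference `s` is at most `tot` -/
def P_tot : Prop := ∀ N i s : ℕ, i < N → 1 ≤ s →
  ((D N i ×ˢ D N i).filter (fun p => p.2 = p.1 + s)).card ≤ tot N i s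
def P_card : Prop := ∀ N i : ℕ, i < N → (D N i).card = 2 * U N i + 2
def P_max : Prop := ∀ N i x : ℕ, i < N → x ∈ D N i →
  3 * x ≤ (N - 1) * N * (2 * N - 1) + 3 * ((2 * i + 1) * N)
/-- large differences are harmless for any set -/
def P_large : Prop := ∀ (S : Finset ℕ) (s : ℕ), 1 ≤ s →
  ((S ×ˢ S).filter (fun p => p.2 = p.1 + s)).card ≤ S.card - 1

/-! ## final statement (HK-FIN) -/

/-- the construction: for `N = L + 1`, `t ≤ 2 L + 1`: an admissible set of size `N (N-1) + t + 1`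
in `[0, (N-1) N (2N-1)/3 + t N]` -/
def P_con : Prop := ∀ N t : ℕ, 1 ≤ N → t < 2 * N →
  ∃ S : Finset ℕ, (∀ x ∈ S, 3 * x ≤ (N - 1) * N * (2 * N - 1) + 3 * (t * N)) ∧ Adm S ∧
    S.card = N * (N - 1) + t + 1

/-- the exact value of `R(n)` -/
def P_final : Prop := ∀ n L : ℕ, 1 ≤ n →
  L * (L + 1) * (2 * L + 1) ≤ 3 * (n - 1) → 3 * (n - 1) < (L + 1) * (L + 2) * (2 * L + 3) →
  IsGreatest {r : ℕ | ∃ S : Finset ℕ, S ⊆ Finset.Icc 1 n ∧ Adm S ∧ S.card = r}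
    (1 + L * (L + 1) + (3 * (n - 1) - L * (L + 1) * (2 * L + 1)) / (3 * (L + 1)))

end R922.HK
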