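import Mathlib
import Pool.Agent.R922.HK.Stm

/-!
# MP_6a97ae_co (Hickerson): assembly (HK-FIN)
-/

set_option autoImplicit false

namespace R922.HK

theorem Adm.mono {S S' : Finset ℕ} (h : Adm S') (hS : S ⊆ S') : Adm S := by
  intro s hs
  refine le_trans (Finset.card_le_card ?_) (h s hs)
  exact Finset.filter_subset_filter _ (Finset.product_subset_product hS hS)

theorem Adm.shift {S : Finset ℕ} (h : Adm S) : Adm (S.image (fun x => x + 1)) := by
  intro s hs
  refine le_trans ?_ (h s hs)
  refine Finset.card_le_card_of_injOn (fun p => (p.1 - 1, p.2 - 1)) ?_ ?_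
  · rintro ⟨p, q⟩ hp
    simp only [Finset.coe_filter, Finset.mem_product, Finset.mem_image] at hp
    obtain ⟨⟨⟨x, hx, hx'⟩, ⟨y, hy, hy'⟩⟩, hpq⟩ := hp
    simp only at hx' hy' hpq
    subst hx'
    subst hy'
    simp only [Finset.coe_filter, Finset.mem_product]
    show (_ ∈ S ∧ _ ∈ S) ∧ _
    simp only [Nat.add_sub_cancel]
    exact ⟨⟨hx, hy⟩, by omega⟩
  · rintro ⟨p, q⟩ hp ⟨p', q'⟩ hp' heq
    simp only [Finset.coe_filter, Finset.mem_product, Finset.mem_image] at hp hp'
    obtain ⟨⟨⟨x, hx, hx'⟩, ⟨y, hy, hy'⟩⟩, hpq⟩ := hp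
    obtain ⟨⟨⟨x2, hx2, hx2'⟩, ⟨y2, hy2, hy2'⟩⟩, hpq2⟩ := hp'
    simp only [Prod.mk.injEq] at heq ⊢
    simp only at hx' hy' hx2' hy2'
    omega

theorem A_mono (N i : ℕ) : Monotone (A N i) := by
  apply monotone_nat_of_le_succ
  intro n
  rw [A_succ]
  omega

theorem BU_mem (N i : ℕ) : B N i (U N i) ∈ D N i := by
  unfold D
  rw [Finset.mem_union]
  right
  rw [Finset.mem_image]
  exact ⟨U N i, Finset.mem_range.2 (by omega), rfl⟩

theorem BU_eq {N i : ℕ} (hi : i < N) : B N i (U N i) = A N i (U N i) + N := by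
  have : X (U N i) = N := X_block hi
  unfold B
  rw [this]

theorem mem_erase_le {N i x : ℕ} (hi : i < N) (hx : x ∈ (D N i).erase (B N i (U N i))) :
    x ≤ A N i (U N i) := by
  rw [Finset.mem_erase] at hx
  obtain ⟨hne, hx⟩ := hx
  unfold D at hx
  rw [Finset.mem_union, Finset.mem_image, Finset.mem_image] at hx
  rcases hx with ⟨u, hu, rfl⟩ | ⟨u, hu, rfl⟩
  · rw [Finset.mem_range] at hu
    exact A_mono N i (by omega)
  · rw [Finset.mem_range] at hu
    have hlt : u < U N i := by
      rcases Nat.lt_or_ge u (U N i) with h | h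
      · exact h
      · exact absurd (by rw [show u = U N i by omega]) hne
    have h1 := A_succ N i u
    have h2 : A N i (u + 1) ≤ A N i (U N i) := A_mono N i hlt
    have h3 := X_le hi hlt.le
    unfold B
    omega

theorem AA_zero {N i s : ℕ} (hs : 1 ≤ s) : AA N i 0 s = ∅ := by
  rw [Finset.eq_empty_iff_forall_notMem]
  intro u hu
  rw [mem_AA] at hu
  simp only [add_zero] at hu
  omega

theorem BB_zero {N i s : ℕ} (hs : 1 ≤ s) : BB N i 0 s = ∅ := by
  rw [Finset.eq_empty_iff_forall_notMem]
  intro u hu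
  rw [mem_BB] at hu
  simp only [add_zero] at hu
  omega

theorem BA_zero {N i s : ℕ} (hs : 1 ≤ s) : BA N i 0 s = ∅ := by
  rw [Finset.eq_empty_iff_forall_notMem]
  intro u hu
  rw [mem_BA] at hu
  simp only [add_zero] at hu
  have := hu.2
  unfold B at this
  omega

theorem tot_small {N i s : ℕ} (c : ℕ → ℕ) (a b : ℕ)
    (hc : ∀ m, (AA N i m s).card + (BB N i m s).card + (AB N i m s).card + (BA N i m s).card =
      c m) (h0 : c 0 ≤ a) (h1 : c 1 ≤ b) (h2 : ∀ m, 2 ≤ m → c m = 0) : tot N i s ≤ a + b := by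
  unfold tot
  have e : ∀ m ∈ Finset.range (U N i + 1), (AA N i m s).card + (BB N i m s).card +
      (AB N i m s).card + (BA N i m s).card ≤
      (if m = 0 then a else 0) + (if m = 1 then b else 0) := by
    intro m _
    rw [hc]
    rcases m with _ | _ | m
    · simpa using h0
    · simpa using h1
    · rw [h2 _ (by omega)]; exact Nat.zero_le _
  refine le_trans (Finset.sum_le_sum e) ?_
  rw [Finset.sum_add_distrib, Finset.sum_ite_eq', Finset.sum_ite_eq']
  split_ifs <;> omega

theorem adm_D (h1 : P_sum) (h2 : P_small) (h3 : P_smallN) (h4 : P_tot) (h5 : P_card)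
    (h7 : P_large) {N i : ℕ} (hi : i < N) : Adm (D N i) := by
  intro s hs
  have hT := T_two N
  rcases Nat.lt_or_ge (2 * s) (N * (N + 1)) with h | h
  · refine le_trans (h4 N i s hi hs) ?_
    rcases Nat.lt_trichotomy s N with hsN | hsN | hsN
    · obtain ⟨a1, a2, a3, a4, a5, a6⟩ := h2 N i s hi hs hsN
      have := tot_small (N := N) (i := i) (s := s) _ s s (fun m => rfl) ?_ ?_ ?_
      · omega
      · beta_reduce
        rw [AA_zero hs, BB_zero hs, BA_zero hs]
        simpa using a5
      · beta_reduce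
        rw [a1 1 le_rfl, a2 1 le_rfl, a3 1 le_rfl]
        simpa using a6
      · intro m hm
        beta_reduce
        rw [a1 m (by omega), a2 m (by omega), a3 m (by omega), a4 m hm]
        simp
    · subst hsN
      obtain ⟨a1, a2, a3, a4, a5⟩ := h3 s i hi
      have := tot_small (N := s) (i := i) (s := s) _ (AB s i 0 s).card
        ((AA s i 1 s).card + (BB s i 1 s).card + (BA s i 1 s).card) (fun m => rfl) ?_ ?_ ?_
      · omega
      · beta_reduce
        rw [AA_zero hs, BB_zero hs, BA_zero hs]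
        simp
      · beta_reduce
        rw [a3 1 le_rfl]
        simp
      · intro m hm
        beta_reduce
        rw [a1 m hm, a2 m hm, a3 m (by omega), a4 m hm]
        simp
    · exact h1 N i s hi hsN h
  · refine le_trans (h7 (D N i) s hs) ?_
    rw [h5 N i hi]
    unfold U
    have h' : N * N + N ≤ 2 * s := by
      have e : N * (N + 1) = N * N + N := by ring
      omega
    omega

theorem con (h1 : P_sum) (h2 : P_small) (h3 : P_smallN) (h4 : P_tot) (h5 : P_card) (h6 : P_max)
    (h7 : P_large) : P_con := by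
  intro N t hN ht
  have hT := T_two N
  have hNN : N * (N - 1) + N = N * N := by
    obtain ⟨M, rfl⟩ : ∃ M, N = M + 1 := ⟨N - 1, by omega⟩
    rw [Nat.add_sub_cancel]; ring
  rcases Nat.even_or_odd' t with ⟨i, rfl | rfl⟩
  · have hi : i < N := by omega
    refine ⟨(D N i).erase (B N i (U N i)), ?_, ?_, ?_⟩
    · intro x hx
      have e1 := mem_erase_le hi hx
      have e2 := h6 N i _ hi (BU_mem N i)
      rw [BU_eq hi] at e2
      have e3 : 3 * ((2 * i + 1) * N) = 3 * (2 * i * N) + 3 * N := by ring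
      omega
    · exact (adm_D h1 h2 h3 h4 h5 h7 hi).mono (Finset.erase_subset _ _)
    · rw [Finset.card_erase_of_mem (BU_mem N i), h5 N i hi]
      unfold U
      omega
  · have hi : i < N := by omega
    refine ⟨D N i, fun x hx => h6 N i x hi hx, adm_D h1 h2 h3 h4 h5 h7 hi, ?_⟩
    rw [h5 N i hi]
    unfold U
    omega

theorem final (hU : P_UB) (hc : P_con) : P_final := by
  intro n L hn h1 h2
  obtain ⟨n, rfl⟩ : ∃ n', n = n' + 1 := ⟨n - 1, by omega⟩
  rw [Nat.add_sub_cancel] at h1 h2 ⊢
  set E := 3 * n - L * (L + 1) * (2 * L + 1) with hE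
  set t := E / (3 * (L + 1)) with ht
  have ht1 : t * (3 * (L + 1)) ≤ E := Nat.div_mul_le_self _ _
  have ht2 : E < (t + 1) * (3 * (L + 1)) := by
    have := Nat.lt_div_mul_add (a := E) (b := 3 * (L + 1)) (by omega)
    rw [← ht] at this
    nlinarith
  have hE2 : E + L * (L + 1) * (2 * L + 1) = 3 * n := by omega
  constructor
  · -- existence
    have htN : t < 2 * (L + 1) := by
      rw [ht, Nat.div_lt_iff_lt_mul (by omega)]
      nlinarith
    obtain ⟨S, hS1, hS2, hS3⟩ := hc (L + 1) t (by omega) htN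
    refine ⟨S.image (fun x => x + 1), ?_, hS2.shift, ?_⟩
    · intro y hy
      rw [Finset.mem_image] at hy
      obtain ⟨x, hx, rfl⟩ := hy
      have := hS1 x hx
      rw [Nat.add_sub_cancel] at this
      have e : 2 * (L + 1) - 1 = 2 * L + 1 := by omega
      rw [e] at this
      rw [Finset.mem_Icc]
      refine ⟨by omega, ?_⟩
      have : 3 * x ≤ 3 * n := by nlinarith
      omega
    · rw [Finset.card_image_of_injective _ (add_left_injective 1), hS3, Nat.add_sub_cancel]
      ring
  · -- upper bound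
    rintro r ⟨S, hS1, hS2, hS3⟩
    rcases r with _ | r
    · exact Nat.zero_le _
    · have := hU n L r S hS1 hS2 hS3
      by_contra hlt
      have h3 : L * (L + 1) + t + 1 ≤ r := by omega
      have h4 : (L * (L + 1) + t + 1) * (3 * (L + 1)) ≤ r * (3 * (L + 1)) :=
        Nat.mul_le_mul_right _ h3
      nlinarith

end R922.HK
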