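import Pool.Agent.R922.HK.Stm

/-!
# HK-RNG: ranges of the windows (MP_6a97ae_co)
-/

set_option autoImplicit false

namespace R922.HK

namespace Rng

theorem lo (N i u m : ℕ) : A N i u + m * N ≤ A N i (u + m) := by
  induction m with
  | zero => simp
  | succ m ih =>
    rw [← add_assoc, A_succ, Nat.succ_mul]
    omega

theorem hi {N i u m : ℕ} (hi : i < N) (h : u + m ≤ U N i) :
    A N i (u + m) + m ≤ A N i u + 2 * m * N := by
  induction m with
  | zero => simp
  | succ m ih =>
    have h1 := ih (by omega)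
    have h2 := J_dl_lt hi (show u + m < U N i by omega)
    have h3 : 2 * (m + 1) * N = 2 * m * N + 2 * N := by ring
    rw [← add_assoc u m 1, A_succ, h3]
    omega

end Rng

open Rng

theorem rngAA : P_rngAA := by
  intro N i m s u hN hm hu
  obtain ⟨h1, h2⟩ := mem_AA.1 hu
  have h3 := lo N i u m
  have h4 := hi hN h1
  omega

theorem rngAB : P_rngAB := by
  intro N i m s u hN hu
  obtain ⟨h1, h2⟩ := mem_AB.1 hu
  unfold B at h2
  have h3 := lo N i u m
  have h4 := hi hN h1
  have h5 := X_mono (show u ≤ u + m by omega)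
  have h6 := al_le_X u
  have h7 := X_le hN h1
  omega

theorem rngBA : P_rngBA := by
  intro N i m s u hN hm hu
  obtain ⟨h1, h2⟩ := mem_BA.1 hu
  obtain ⟨m, rfl⟩ : ∃ k, m = k + 1 := ⟨m - 1, by omega⟩
  unfold B at h2
  have e : u + (m + 1) = u + 1 + m := by omega
  rw [e] at h1 h2
  have h3 := lo N i (u + 1) m
  have h4 := hi hN h1
  have h5 := A_succ N i u
  have h6 := al_add_J u
  have h7 := al_le hN (show u ≤ U N i by omega)
  have h8 := dl_le N i u
  have h9 := al_pos u
  have h10 : al u = N → dl N i u = 1 := by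
    intro ha
    have hX := X_le hN (show u ≤ U N i by omega)
    have hX2 : X u = N := by omega
    have hp := pos_eq u
    rw [hX2] at hp
    have hT := T_mono (show N - i ≤ N by omega)
    unfold dl
    rw [if_pos (by omega)]
  simp only [Nat.add_sub_cancel]
  by_cases ha : al u = N
  · have := h10 ha
    omega
  · omega

theorem topBA : P_topBA := by
  intro N i m ρ u hN hm hρ hm1 hu
  obtain ⟨h1, h2⟩ := mem_BA.1 hu
  unfold B at h2
  have e : u + (m + 1) = u + 1 + m := by omega
  rw [e] at h1 h2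
  have h3 := lo N i (u + 1) m
  have h5 := A_succ N i u
  have h6 := al_add_J u
  by_contra hc
  push Not at hc
  -- dl u = 0 and the first bracket is exactly m N
  obtain ⟨m', rfl⟩ : ∃ k, m = k + 1 := ⟨m - 1, by omega⟩
  have h7 := lo N i (u + 1 + 1) m'
  have h8 := A_succ N i (u + 1)
  have e2 : u + 1 + 1 + m' = u + 1 + (m' + 1) := by omega
  rw [e2] at h7
  have e3 : (m' + 1) * N = m' * N + N := by ring
  rw [e3] at h2 h3
  have hJ1 : J (u + 1) = 0 := by omega
  rcases step u with ⟨_, _, hs⟩ | ⟨hs1, hs2, _⟩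
  · omega
  · have hρ1 : ρ + 1 = N := by omega
    have hm2 : m' ≠ 0 := by
      intro h0
      have := hm1 (by omega)
      omega
    obtain ⟨m'', rfl⟩ : ∃ k, m' = k + 1 := ⟨m' - 1, by omega⟩
    have h9 := lo N i (u + 1 + 1 + 1) m''
    have h10 := A_succ N i (u + 1 + 1)
    have e4 : u + 1 + 1 + 1 + m'' = u + 1 + (m'' + 1 + 1) := by omega
    rw [e4] at h9
    have e5 : (m'' + 1) * N = m'' * N + N := by ring
    rw [e5] at h2 h3 h7
    have hJ2 : J (u + 1 + 1) = 0 := by omega
    have hX := X_pos u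
    rcases step (u + 1) with ⟨_, _, hs3⟩ | ⟨hs3, _, _⟩
    · omega
    · omega

/-- one step of the family `B` -/
theorem stepB {N i v : ℕ} (hN : i < N) (hv : v < U N i) :
    B N i (v + 1) + 1 ≤ B N i v + 2 * N ∨
      (v + 1 = T N ∧ B N i (v + 1) ≤ B N i v + 2 * N) := by
  unfold B
  rw [A_succ]
  have h1 := J_dl_lt hN hv
  have h2 := dl_le N i v
  rcases step v with ⟨a, b, c⟩ | ⟨a, b, c⟩
  · left
    omega
  · have h3 := X_le hN (show v + 1 ≤ U N i by omega)
    by_cases h4 : X v + 1 = N
    · right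
      have h5 := pos_eq (v + 1)
      rw [b, c, h4] at h5
      exact ⟨by omega, by omega⟩
    · left
      omega

theorem hiB {N i u m : ℕ} (hN : i < N) (h : u + m ≤ U N i) :
    B N i (u + m) + m ≤ B N i u + 2 * m * N + (if u < T N ∧ T N ≤ u + m then 1 else 0) := by
  induction m with
  | zero => simp
  | succ m ih =>
    have h1 := ih (by omega)
    have h2 := stepB hN (show u + m < U N i by omega)
    have h3 : 2 * (m + 1) * N = 2 * m * N + 2 * N := by ring
    rw [← add_assoc u m 1, h3]
    rcases h2 with h2 | ⟨h2, h4⟩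
    · split_ifs at h1 ⊢ <;> omega
    · split_ifs at h1 ⊢ <;> omega

theorem rngBB : P_rngBB := by
  intro N i m s u hN hm hu
  obtain ⟨h1, h2⟩ := mem_BB.1 hu
  have h3 := hiB hN h1
  have h4 := lo N i u m
  have h5 := X_mono (show u ≤ u + m by omega)
  constructor
  · unfold B at h2
    omega
  · split_ifs at h3 <;> omega

theorem BB1s : P_BB1s := by
  intro N i hN
  rw [Finset.card_le_one]
  have key : ∀ u ∈ BB N i 1 (2 * N), u + 1 = T N := by
    intro u hu
    obtain ⟨h1, h2⟩ := mem_BB.1 hu
    rcases stepB hN (show u < U N i by omega) with h | ⟨h, _⟩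
    · omega
    · exact h
  intro u hu v hv
  have := key u hu
  have := key v hv
  omega

end R922.HK
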