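import Mathlib
import Pool.Agent.R922.HK.Stm

/-!
# MP_6a97ae_co: the total count from the pieces (HK-SUM)
-/

namespace R922.HK

theorem cAA (h : P_injAA) {N i m s : ℕ} (hi : i < N) (hm : 1 ≤ m) : (AA N i m s).card ≤ N := by
  have := Finset.card_le_card_of_injOn (s := AA N i m s) (t := Finset.Icc 1 N) al
    (fun u hu => by
      have := (mem_AA.1 hu).1
      simp only [Finset.coe_Icc, Set.mem_Icc]
      exact ⟨al_pos u, al_le hi (by omega)⟩)
    (fun u hu v hv e => h N i m s u v hm hu hv e)
  simpa using this

theorem cAB (h : P_injAB) {N i m s : ℕ} (hi : i < N) : (AB N i m s).card ≤ N := by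
  have := Finset.card_le_card_of_injOn (s := AB N i m s) (t := Finset.Icc 1 N) al
    (fun u hu => by
      have := (mem_AB.1 hu).1
      simp only [Finset.coe_Icc, Set.mem_Icc]
      exact ⟨al_pos u, al_le hi (by omega)⟩)
    (fun u hu v hv e => h N i m s u v hu hv e)
  simpa using this

theorem cABtop (h : P_injAB) (hr : P_rngAB) {N i m s : ℕ} (hi : i < N) :
    (AB N i m s).card ≤ s - m * N := by
  have := Finset.card_le_card_of_injOn (s := AB N i m s) (t := Finset.Icc 1 (s - m * N)) al
    (fun u hu => by
      have := (hr N i m s u hi hu).1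
      simp only [Finset.coe_Icc, Set.mem_Icc]
      exact ⟨al_pos u, by omega⟩)
    (fun u hu v hv e => h N i m s u v hu hv e)
  simpa using this

theorem cBA2 (h : P_injBA) {N i m s : ℕ} (hi : i < N) (hm : 2 ≤ m) :
    ((BA N i m s).filter (fun u => 2 ≤ al u)).card ≤ N - 1 := by
  have := Finset.card_le_card_of_injOn (s := (BA N i m s).filter (fun u => 2 ≤ al u))
    (t := Finset.Icc 2 N) al
    (fun u hu => by
      have hu' := Finset.mem_filter.1 hu
      have := (mem_BA.1 hu'.1).1
      simp only [Finset.coe_Icc, Set.mem_Icc]
      exact ⟨hu'.2, al_le hi (by omega)⟩)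
    (fun u hu v hv e => by
      have hu' := Finset.mem_filter.1 hu
      have hv' := Finset.mem_filter.1 hv
      exact h N i m s u v hm hu'.1 hv'.1 hu'.2 e)
  simp only [Nat.card_Icc] at this
  omega

theorem card_split (S : Finset ℕ) :
    S.card = (S.filter (fun u => al u = 1)).card + (S.filter (fun u => 2 ≤ al u)).card := by
  rw [← Finset.card_filter_add_card_filter_not (s := S) (fun u => al u = 1)]
  congr 1
  apply congrArg
  apply Finset.filter_congr
  intro u _
  have := al_pos u
  omega

theorem cBB2 (h : P_injBB) {N i m s : ℕ} (hi : i < N) (hm : 1 ≤ m) :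
    ((BB N i m s).filter (fun u => 2 ≤ al u)).card ≤ N - 1 := by
  have := Finset.card_le_card_of_injOn (s := (BB N i m s).filter (fun u => 2 ≤ al u))
    (t := Finset.Icc 2 N) al
    (fun u hu => by
      have hu' := Finset.mem_filter.1 hu
      have := (mem_BB.1 hu'.1).1
      simp only [Finset.coe_Icc, Set.mem_Icc]
      exact ⟨hu'.2, al_le hi (by omega)⟩)
    (fun u hu v hv e => by
      have hu' := Finset.mem_filter.1 hu
      have hv' := Finset.mem_filter.1 hv
      exact h N i m s u v hm hu'.1 hv'.1 (Or.inl hu'.2) e)
  simp only [Nat.card_Icc] at this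
  omega

theorem cBB (h : P_injBB) (h1 : P_BB1) {N i m s : ℕ} (hi : i < N) (hm : 1 ≤ m) :
    (BB N i m s).card ≤ N + 1 := by
  rw [card_split]
  have a := h1 N i m s hm
  have b := cBB2 h hi hm (s := s)
  omega

theorem cBBs (h : P_injBB) {N i m s : ℕ} (hi : i < N) (hm : 1 ≤ m) (hm2 : m ≤ 2) :
    (BB N i m s).card ≤ N := by
  have := Finset.card_le_card_of_injOn (s := BB N i m s) (t := Finset.Icc 1 N) al
    (fun u hu => by
      have := (mem_BB.1 hu).1
      simp only [Finset.coe_Icc, Set.mem_Icc]
      exact ⟨al_pos u, al_le hi (by omega)⟩)
    (fun u hu v hv e => h N i m s u v hm hu hv (Or.inr hm2) e)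
  simpa using this

theorem cBAtop (h : P_injBA) (ht : P_topBA) {N i m ρ s : ℕ} (hi : i < N) (hm : 1 ≤ m) (hρ : ρ < N)
    (h1 : m = 1 → ρ + 1 < N) (hs : s = m * N + ρ) : (BA N i (m + 1) s).card ≤ ρ := by
  subst hs
  have := Finset.card_le_card_of_injOn (s := BA N i (m + 1) (m * N + ρ))
    (t := Finset.Icc (N + 1 - ρ) N) al
    (fun u hu => by
      have h0 := (mem_BA.1 hu).1
      have := ht N i m ρ u hi hm hρ h1 hu
      simp only [Finset.coe_Icc, Set.mem_Icc]
      exact ⟨by omega, al_le hi (by omega)⟩)
    (fun u hu v hv e => by
      have := ht N i m ρ u hi hm hρ h1 hu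
      exact h N i (m + 1) _ u v (by omega) hu hv (by omega) e)
  simp only [Nat.card_Icc] at this
  omega

/-- the three types together -/
theorem lemM (hBA : P_injBA) (hBB : P_injBB) (hAA : P_injAA) (hBB1 : P_BB1)
    (l1 : P_BA1lt) (l2 : P_BA1eq) (l3 : P_BA1gt) (a1 : P_AAlt) (a2 : P_AAeq) (a3 : P_BAge)
    {N i m s : ℕ} (hi : i < N) (hm : 2 ≤ m) (hmN : 2 * m ≤ N) (hs : m * N ≤ s) :
    (AA N i m s).card + (BB N i m s).card + (BA N i m s).card ≤ 3 * N ∧
    (m = 2 → (AA N i m s).card + (BB N i m s).card + (BA N i m s).card + 1 ≤ 3 * N) := by
  obtain ⟨w, rfl⟩ := Nat.exists_eq_add_of_le hs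
  have e := card_split (BA N i m (m * N + w))
  have cb := cBB hBB hBB1 hi (show 1 ≤ m by omega) (s := m * N + w)
  have cb' : m = 2 → (BB N i m (m * N + w)).card ≤ N := fun h => cBBs hBB hi (by omega) (by omega)
  have c2 := cBA2 hBA hi hm (s := m * N + w)
  have ca := cAA hAA hi (show 1 ≤ m by omega) (s := m * N + w)
  rcases lt_trichotomy w (T m) with h | h | h
  · have x1 := a1 N i m w hi hm h
    have x2 := l1 N i m w hi hm hmN h
    constructor
    · omega
    · intro h2
      have := cb' h2
      omega
  · have x1 := a2 N i m hi hm
    have x2 := l2 N i m hi hm hmN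
    have x3 := a3 N i m w hi hm hmN (by omega)
    rw [← h] at x1 x2
    constructor
    · omega
    · intro h2
      have := cb' h2
      omega
  · have x2 := l3 N i m w hi hm hmN h
    have x3 := a3 N i m w hi hm hmN (by omega)
    constructor
    · omega
    · intro h2
      have := cb' h2
      omega

/-- sum of a box function -/
theorem sum_box (K a b c : ℕ) :
    ∑ m ∈ Finset.range K, (if a ≤ m ∧ m ≤ b then c else 0) ≤ (b + 1 - a) * c := by
  rw [← Finset.sum_filter, Finset.sum_const, smul_eq_mul]
  apply Nat.mul_le_mul_right
  rw [← Nat.card_Icc]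
  apply Finset.card_le_card
  intro x hx
  simp only [Finset.mem_filter, Finset.mem_range, Finset.mem_Icc] at hx ⊢
  exact hx.2

theorem card_eq_zero_of {S : Finset ℕ} (h : ∀ u ∈ S, False) : S.card = 0 := by
  rw [Finset.card_eq_zero, Finset.eq_empty_iff_forall_notMem]
  exact h

theorem sum_main (hAA : P_injAA) (hAB : P_injAB) (hBA : P_injBA) (hBB : P_injBB) (hBB1 : P_BB1)
    (l1 : P_BA1lt) (l2 : P_BA1eq) (l3 : P_BA1gt) (l4 : P_BA2s)
    (a1 : P_AAlt) (a2 : P_AAeq) (a3 : P_BAge) (a4 : P_AAodd) (a5 : P_AA1s)
    (r1 : P_rngAA) (r2 : P_rngBB) (r3 : P_BB1s) (r4 : P_rngAB) (r5 : P_rngBA) (r6 : P_topBA) :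
    P_sum := by
  intro N i s hi hNs hs
  have hN : 1 ≤ N := by omega
  obtain ⟨m0, ρ, hρ, hsd⟩ : ∃ m0 ρ, ρ < N ∧ s = m0 * N + ρ :=
    ⟨s / N, s % N, Nat.mod_lt _ hN, by rw [mul_comm]; exact (Nat.div_add_mod s N).symm⟩
  have hm0 : 1 ≤ m0 := by
    rcases Nat.eq_zero_or_pos m0 with h | h
    · subst h; omega
    · exact h
  have hm0N : 2 * m0 ≤ N := by
    by_contra hc
    have : N + 1 ≤ 2 * m0 := by omega
    have h2 := Nat.mul_le_mul_right N this
    nlinarith
  -- linear facts
  have f1 : ∀ m, m * N ≤ s → m ≤ m0 := by
    intro m h
    by_contra hc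
    have := Nat.mul_le_mul_right N (show m0 + 1 ≤ m by omega)
    nlinarith
  have f2 : ∀ m, s + 1 ≤ 2 * m * N → m0 < 2 * m := by
    intro m h
    by_contra hc
    have := Nat.mul_le_mul_right N (show 2 * m ≤ m0 by omega)
    omega
  have f3 : ∀ m, 1 ≤ m → s + m ≤ 2 * m * N + N → m0 ≤ 2 * m := by
    intro m h1 h
    by_contra hc
    have := Nat.mul_le_mul_right N (show 2 * m + 1 ≤ m0 by omega)
    have e : (2 * m + 1) * N = 2 * m * N + N := by ring
    omega
  -- zeros
  have zAA : ∀ m, ¬ (m ≤ m0 ∧ m0 < 2 * m) → (AA N i m s).card = 0 := by
    intro m h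
    apply card_eq_zero_of
    intro u hu
    rcases Nat.eq_zero_or_pos m with h0 | h0
    · subst h0
      have := (mem_AA.1 hu).2
      rw [add_zero] at this
      omega
    · have := r1 N i m s u hi h0 hu
      exact h ⟨f1 m this.1, f2 m this.2⟩
  have zBB : ∀ m, ¬ (m ≤ m0 ∧ m0 < 2 * m) → ¬ (m = 1 ∧ s = 2 * N) → (BB N i m s).card = 0 := by
    intro m h h'
    apply card_eq_zero_of
    intro u hu
    rcases Nat.eq_zero_or_pos m with h0 | h0
    · subst h0
      have := (mem_BB.1 hu).2
      rw [add_zero] at this
      omega
    · have := r2 N i m s u hi h0 hu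
      by_cases hm1 : m = 1
      · subst hm1
        apply h ⟨f1 1 this.1, f2 1 ?_⟩
        have h3 := this.2
        omega
      · exact h ⟨f1 m this.1, f2 m (by omega)⟩
  have zAB : ∀ m, ¬ (1 ≤ m ∧ m ≤ m0 ∧ m0 ≤ 2 * m) → (AB N i m s).card = 0 := by
    intro m h
    apply card_eq_zero_of
    intro u hu
    have := r4 N i m s u hi hu
    rcases Nat.eq_zero_or_pos m with h0 | h0
    · subst h0
      have h3 := this.2
      omega
    · exact h ⟨h0, f1 m (by omega), f3 m h0 this.2⟩
  have zBA : ∀ m, ¬ (2 ≤ m ∧ m ≤ m0 + 1 ∧ m0 ≤ 2 * (m - 1)) → (BA N i m s).card = 0 := by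
    intro m h
    apply card_eq_zero_of
    intro u hu
    rcases Nat.eq_zero_or_pos m with h0 | h0
    · subst h0
      have := (mem_BA.1 hu).2
      rw [add_zero] at this
      unfold B at this
      omega
    · have := r5 N i m s u hi h0 hu
      by_cases hm1 : m = 1
      · subst hm1
        have h3 := this.2
        omega
      · have h4 := f1 (m - 1) (by omega)
        exact h ⟨by omega, by omega, f3 (m - 1) (by omega) this.2⟩
  have hABN : ∀ m, (AB N i m s).card ≤ N := fun m => cAB hAB hi
  have hABρ : (AB N i m0 s).card ≤ ρ := by
    have := cABtop hAB r4 hi (m := m0) (s := s) (N := N) (i := i)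
    rw [hsd] at this ⊢
    omega
  unfold tot
  -- main cases
  rcases Nat.even_or_odd' m0 with ⟨h, hh | hh⟩
  · -- even
    subst hh
    have hh1 : 1 ≤ h := by omega
    have hBAρ : (BA N i (2 * h + 1) s).card ≤ ρ :=
      cBAtop hBA r6 hi hm0 hρ (by omega) hsd
    by_cases hex : s = 2 * N
    · -- exceptional value
      have e1 : h = 1 := by
        have h1 := f1 2 (by omega)
        by_contra hc
        have := Nat.mul_le_mul_right N (show 4 ≤ 2 * h by omega)
        omega
      subst e1
      have e2 : ρ = 0 := by omega
      subst e2
      have hM := (lemM hBA hBB hAA hBB1 l1 l2 l3 a1 a2 a3 hi (le_refl 2) (by omega)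
        (show 2 * N ≤ s by omega)).2 rfl
      have hb1 : (BB N i 1 s).card ≤ 1 := by rw [hex]; exact r3 N i hi
      calc ∑ m ∈ Finset.range (U N i + 1),
            ((AA N i m s).card + (BB N i m s).card + (AB N i m s).card + (BA N i m s).card)
          ≤ ∑ m ∈ Finset.range (U N i + 1), ((if 1 ≤ m ∧ m ≤ 1 then N + 1 else 0) +
              (if 2 ≤ m ∧ m ≤ 2 then 3 * N - 1 else 0)) := by
            apply Finset.sum_le_sum
            intro m _
            have q1 := zAA m
            have q2 := zBB m
            have q3 := zAB m
            have q4 := zBA m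
            have q5 := hABN m
            by_cases c1 : m = 1
            · subst c1
              simp only [le_refl, and_self, if_true]
              rw [zAA 1 (by omega), zBA 1 (by omega)]
              omega
            · by_cases c2 : m = 2
              · subst c2
                have : (AB N i 2 s).card ≤ 0 := hABρ
                rw [if_neg (by omega), if_pos (by omega)]
                omega
              · by_cases c3 : m = 3
                · subst c3
                  have q6 : (BA N i 3 s).card ≤ 0 := hBAρ
                  rw [zAA 3 (by omega), zBB 3 (by omega) (by omega), zAB 3 (by omega)]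
                  omega
                · rw [q1 (by omega), q2 (by omega) (by omega), q3 (by omega), q4 (by omega)]
                  omega
        _ ≤ (1 + 1 - 1) * (N + 1) + (2 + 1 - 2) * (3 * N - 1) := by
            rw [Finset.sum_add_distrib]
            exact Nat.add_le_add (sum_box _ _ _ _) (sum_box _ _ _ _)
        _ ≤ 2 * s := by omega
    · calc ∑ m ∈ Finset.range (U N i + 1),
            ((AA N i m s).card + (BB N i m s).card + (AB N i m s).card + (BA N i m s).card)
          ≤ ∑ m ∈ Finset.range (U N i + 1), ((if h + 1 ≤ m ∧ m ≤ 2 * h then 3 * N else 0) +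
              (if h ≤ m ∧ m ≤ 2 * h - 1 then N else 0) +
              (if 2 * h ≤ m ∧ m ≤ 2 * h then ρ else 0) +
              (if 2 * h + 1 ≤ m ∧ m ≤ 2 * h + 1 then ρ else 0)) := by
            apply Finset.sum_le_sum
            intro m _
            have q1 := zAA m
            have q2 := zBB m
            have q3 := zAB m
            have q4 := zBA m
            have q5 := hABN m
            by_cases c0 : m = 2 * h + 1
            · subst c0
              rw [q1 (by omega), q2 (by omega) (by omega), q3 (by omega),
                if_neg (by omega), if_neg (by omega), if_neg (by omega), if_pos (by omega)]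
              omega
            · by_cases c1 : h + 1 ≤ m ∧ m ≤ 2 * h
              · have hM := (lemM hBA hBB hAA hBB1 l1 l2 l3 a1 a2 a3 hi (show 2 ≤ m by omega)
                  (show 2 * m ≤ N by omega)
                  (show m * N ≤ s by
                    have := Nat.mul_le_mul_right N c1.2
                    omega)).1
                rw [if_pos c1]
                by_cases c2 : m = 2 * h
                · subst c2
                  rw [if_neg (by omega), if_pos (by omega), if_neg (by omega)]
                  omega
                · rw [if_pos (by omega), if_neg (by omega), if_neg (by omega)]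
                  omega
              · rw [q1 (by omega), q2 (by omega) (by omega), q4 (by omega), if_neg c1]
                by_cases c2 : m = h
                · subst c2
                  rw [if_pos (by omega), if_neg (by omega), if_neg (by omega)]
                  omega
                · rw [q3 (by omega), if_neg (by omega), if_neg (by omega), if_neg (by omega)]
        _ ≤ (2 * h + 1 - (h + 1)) * (3 * N) + (2 * h - 1 + 1 - h) * N +
              (2 * h + 1 - 2 * h) * ρ + (2 * h + 1 + 1 - (2 * h + 1)) * ρ := by
            rw [Finset.sum_add_distrib, Finset.sum_add_distrib, Finset.sum_add_distrib]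
            exact Nat.add_le_add (Nat.add_le_add (Nat.add_le_add (sum_box _ _ _ _)
              (sum_box _ _ _ _)) (sum_box _ _ _ _)) (sum_box _ _ _ _)
        _ ≤ 2 * s := by
            rw [show 2 * h + 1 - (h + 1) = h by omega, show 2 * h - 1 + 1 - h = h by omega,
              show 2 * h + 1 - 2 * h = 1 by omega, show 2 * h + 1 + 1 - (2 * h + 1) = 1 by omega,
              hsd]
            nlinarith
  · -- odd
    subst hh
    rcases Nat.eq_zero_or_pos h with h0 | hh1
    · -- m0 = 1
      subst h0
      have hsd' : s = N + ρ := by omega
      have hρ1 : (AB N i 1 s).card ≤ ρ := by simpa using hABρ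
      have b1 : (BB N i 1 s).card ≤ N := cBBs hBB hi (by omega) (by omega)
      by_cases hex : ρ + 1 < N
      · have b2 : (AA N i 1 s).card ≤ N := cAA hAA hi (by omega)
        have b3 : (BA N i 2 s).card ≤ ρ :=
          cBAtop hBA r6 hi (le_refl 1) hρ (fun _ => hex) (by omega)
        calc ∑ m ∈ Finset.range (U N i + 1),
              ((AA N i m s).card + (BB N i m s).card + (AB N i m s).card + (BA N i m s).card)
            ≤ ∑ m ∈ Finset.range (U N i + 1), ((if 1 ≤ m ∧ m ≤ 1 then 2 * N + ρ else 0) +
                (if 2 ≤ m ∧ m ≤ 2 then ρ else 0)) := by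
              apply Finset.sum_le_sum
              intro m _
              have q1 := zAA m
              have q2 := zBB m
              have q3 := zAB m
              have q4 := zBA m
              by_cases c1 : m = 1
              · subst c1
                rw [if_pos (by omega), if_neg (by omega), q4 (by omega)]
                omega
              · by_cases c2 : m = 2
                · subst c2
                  rw [if_neg (by omega), if_pos (by omega), q1 (by omega),
                    q2 (by omega) (by omega), q3 (by omega)]
                  omega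
                · rw [q1 (by omega), q2 (by omega) (by omega), q3 (by omega), q4 (by omega)]
                  omega
          _ ≤ (1 + 1 - 1) * (2 * N + ρ) + (2 + 1 - 2) * ρ := by
              rw [Finset.sum_add_distrib]
              exact Nat.add_le_add (sum_box _ _ _ _) (sum_box _ _ _ _)
          _ ≤ 2 * s := by omega
      · -- s = 2 N - 1
        have hs2 : s = 2 * N - 1 := by omega
        have b2 : (AA N i 1 s).card ≤ 2 := by rw [hs2]; exact a5 N i hi (by omega)
        have b3 : ((BA N i 2 s).filter (fun u => al u = 1)).card ≤ N - 2 := by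
          rw [hs2]; exact l4 N i hi (by omega)
        have b4 := cBA2 hBA hi (le_refl 2) (s := s)
        have b5 := card_split (BA N i 2 s)
        calc ∑ m ∈ Finset.range (U N i + 1),
              ((AA N i m s).card + (BB N i m s).card + (AB N i m s).card + (BA N i m s).card)
            ≤ ∑ m ∈ Finset.range (U N i + 1), ((if 1 ≤ m ∧ m ≤ 1 then 2 * N + 1 else 0) +
                (if 2 ≤ m ∧ m ≤ 2 then 2 * N - 3 else 0)) := by
              apply Finset.sum_le_sum
              intro m _
              have q1 := zAA m
              have q2 := zBB m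
              have q3 := zAB m
              have q4 := zBA m
              by_cases c1 : m = 1
              · subst c1
                rw [if_pos (by omega), if_neg (by omega), q4 (by omega)]
                omega
              · by_cases c2 : m = 2
                · subst c2
                  rw [if_neg (by omega), if_pos (by omega), q1 (by omega),
                    q2 (by omega) (by omega), q3 (by omega)]
                  omega
                · rw [q1 (by omega), q2 (by omega) (by omega), q3 (by omega), q4 (by omega)]
                  omega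
          _ ≤ (1 + 1 - 1) * (2 * N + 1) + (2 + 1 - 2) * (2 * N - 3) := by
              rw [Finset.sum_add_distrib]
              exact Nat.add_le_add (sum_box _ _ _ _) (sum_box _ _ _ _)
          _ ≤ 2 * s := by omega
    · -- m0 = 2 h + 1, h ≥ 1
      have hBAρ : (BA N i (2 * h + 1 + 1) s).card ≤ ρ :=
        cBAtop hBA r6 hi hm0 hρ (by omega) hsd
      have hne : s ≠ 2 * N := by
        intro hc
        have := Nat.mul_le_mul_right N (show 3 ≤ 2 * h + 1 by omega)
        omega
      calc ∑ m ∈ Finset.range (U N i + 1),
            ((AA N i m s).card + (BB N i m s).card + (AB N i m s).card + (BA N i m s).card)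
          ≤ ∑ m ∈ Finset.range (U N i + 1), ((if h + 1 ≤ m ∧ m ≤ h + 1 then 2 * N else 0) +
              (if h + 2 ≤ m ∧ m ≤ 2 * h + 1 then 3 * N else 0) +
              (if h + 1 ≤ m ∧ m ≤ 2 * h then N else 0) +
              (if 2 * h + 1 ≤ m ∧ m ≤ 2 * h + 1 then ρ else 0) +
              (if 2 * h + 2 ≤ m ∧ m ≤ 2 * h + 2 then ρ else 0)) := by
            apply Finset.sum_le_sum
            intro m _
            have q1 := zAA m
            have q2 := zBB m
            have q3 := zAB m
            have q4 := zBA m
            have q5 := hABN m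
            by_cases c0 : m = 2 * h + 1 + 1
            · subst c0
              rw [q1 (by omega), q2 (by omega) (by omega), q3 (by omega),
                if_neg (by omega), if_neg (by omega), if_neg (by omega), if_neg (by omega),
                if_pos (by omega)]
              omega
            · by_cases c1 : h + 2 ≤ m ∧ m ≤ 2 * h + 1
              · have hM := (lemM hBA hBB hAA hBB1 l1 l2 l3 a1 a2 a3 hi (show 2 ≤ m by omega)
                  (show 2 * m ≤ N by omega)
                  (show m * N ≤ s by
                    have := Nat.mul_le_mul_right N c1.2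
                    omega)).1
                rw [if_neg (by omega), if_pos c1]
                by_cases c2 : m = 2 * h + 1
                · subst c2
                  rw [if_neg (by omega), if_pos (by omega), if_neg (by omega)]
                  omega
                · rw [if_pos (by omega), if_neg (by omega), if_neg (by omega)]
                  omega
              · by_cases c2 : m = h + 1
                · subst c2
                  have x1 : (AA N i (h + 1) s).card ≤ N - 1 := by
                    apply a4 N i (h + 1) s hi (by omega) (by omega)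
                    have : 2 * (h + 1) - 1 = 2 * h + 1 := by omega
                    rw [this]
                    omega
                  have x2 := cBB hBB hBB1 hi (show 1 ≤ h + 1 by omega) (s := s)
                  rw [q4 (by omega), if_pos (by omega), if_neg (by omega), if_pos (by omega),
                    if_neg (by omega), if_neg (by omega)]
                  omega
                · rw [q1 (by omega), q2 (by omega) (by omega), q3 (by omega), q4 (by omega)]
                  omega
        _ ≤ (h + 1 + 1 - (h + 1)) * (2 * N) + (2 * h + 1 + 1 - (h + 2)) * (3 * N) +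
              (2 * h + 1 - (h + 1)) * N + (2 * h + 1 + 1 - (2 * h + 1)) * ρ +
              (2 * h + 2 + 1 - (2 * h + 2)) * ρ := by
            rw [Finset.sum_add_distrib, Finset.sum_add_distrib, Finset.sum_add_distrib,
              Finset.sum_add_distrib]
            exact Nat.add_le_add (Nat.add_le_add (Nat.add_le_add (Nat.add_le_add
              (sum_box _ _ _ _) (sum_box _ _ _ _)) (sum_box _ _ _ _)) (sum_box _ _ _ _))
              (sum_box _ _ _ _)
        _ ≤ 2 * s := by
            rw [show h + 1 + 1 - (h + 1) = 1 by omega, show 2 * h + 1 + 1 - (h + 2) = h by omega,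
              show 2 * h + 1 - (h + 1) = h by omega,
              show 2 * h + 1 + 1 - (2 * h + 1) = 1 by omega,
              show 2 * h + 2 + 1 - (2 * h + 2) = 1 by omega, hsd]
            nlinarith

end R922.HK
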