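import Mathlib
import Pool.Agent.R922.HK.Stm

/-!
# HK-UB: the upper bound
-/

namespace R922.HK

/-- telescoping sum of gaps of a function on naturals -/
theorem ub_tel (f : ℕ → ℕ) (r : ℕ) (h : ∀ k, k < r → f k ≤ f (k + 1)) :
    ∑ k ∈ Finset.range r, (f (k + 1) - f k) + f 0 = f r := by
  induction r with
  | zero => simp
  | succ r ih =>
    rw [Finset.sum_range_succ]
    have h1 := ih (fun k hk => h k (by omega))
    have h2 := h r (by omega)
    omega

theorem ub_poly (L : ℕ) :
    3 * ∑ s ∈ Finset.range L, (L - s) * (2 * (s + 1)) = L * (L + 1) * (L + 2) := by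
  have key : ∀ L : ℕ, ∑ s ∈ Finset.range (L + 1), (L + 1 - s) * (2 * (s + 1)) =
      ∑ s ∈ Finset.range L, (L - s) * (2 * (s + 1)) + ∑ s ∈ Finset.range (L + 1), 2 * (s + 1) := by
    intro L
    rw [Finset.sum_range_succ, Finset.sum_range_succ (fun s => 2 * (s + 1)), ← add_assoc,
      ← Finset.sum_add_distrib]
    congr 1
    · apply Finset.sum_congr rfl
      intro s hs
      have := Finset.mem_range.1 hs
      have e : L + 1 - s = (L - s) + 1 := by omega
      rw [e]; ring
    · have e : L + 1 - L = 1 := by omega
      rw [e]; ring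
  have key2 : ∀ L : ℕ, ∑ s ∈ Finset.range (L + 1), 2 * (s + 1) = (L + 1) * (L + 2) := by
    intro L
    induction L with
    | zero => simp
    | succ L ih => rw [Finset.sum_range_succ, ih]; ring
  induction L with
  | zero => simp
  | succ L ih => rw [key, mul_add, ih, key2]; ring

theorem UB : P_UB := by
  intro n L r S hS hA hc
  classical
  set e := S.orderEmbOfFin hc with he
  let f : ℕ → ℕ := fun k => if h : k < r + 1 then e ⟨k, h⟩ else 0
  have hf : ∀ k (h : k < r + 1), f k = e ⟨k, h⟩ := fun k h => by simp only [f]; rw [dif_pos h]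
  have hfS : ∀ k, k < r + 1 → f k ∈ S := fun k h => by
    rw [hf k h]; exact S.orderEmbOfFin_mem hc _
  have hlt : ∀ k, k < r → f k < f (k + 1) := fun k h => by
    rw [hf k (by omega), hf (k + 1) (by omega)]
    exact e.strictMono (by simp)
  have hinj : ∀ k l, k < r + 1 → l < r + 1 → f k = f l → k = l := fun k l hk hl h => by
    rw [hf k hk, hf l hl] at h
    have := e.injective h
    simpa using this
  have htel := ub_tel f r (fun k hk => (hlt k hk).le)
  have h0 := Finset.mem_Icc.1 (hS (hfS 0 (by omega)))
  have hr := Finset.mem_Icc.1 (hS (hfS r (by omega)))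
  have hsum : ∑ k ∈ Finset.range r, (f (k + 1) - f k) ≤ n := by omega
  -- number of gaps of a given size
  have hcount : ∀ s, ((Finset.range r).filter (fun k => f (k + 1) - f k = s + 1)).card ≤
      2 * (s + 1) := by
    intro s
    refine le_trans ?_ (hA (s + 1) (by omega))
    apply Finset.card_le_card_of_injOn (fun k => (f k, f (k + 1)))
    · intro k hk
      have hk' := Finset.mem_filter.1 (Finset.mem_coe.1 hk)
      have hkr := Finset.mem_range.1 hk'.1
      have := hlt k hkr
      apply Finset.mem_coe.2
      refine Finset.mem_filter.2 ⟨Finset.mem_product.2 ⟨hfS k (by omega), hfS (k + 1) (by omega)⟩, ?_⟩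
      have h3 := hk'.2
      show f (k + 1) = f k + (s + 1)
      omega
    · intro k hk l hl h
      have hk' := Finset.mem_range.1 (Finset.mem_filter.1 (Finset.mem_coe.1 hk)).1
      have hl' := Finset.mem_range.1 (Finset.mem_filter.1 (Finset.mem_coe.1 hl)).1
      exact hinj k l (by omega) (by omega) (Prod.ext_iff.1 h).1
  -- pointwise inequality
  have hpt : ∀ k ∈ Finset.range r, L + 1 ≤ (f (k + 1) - f k) +
      ∑ s ∈ Finset.range L, (if f (k + 1) - f k = s + 1 then (L - s) else 0) := by
    intro k hk
    have hkr := Finset.mem_range.1 hk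
    have h1 := hlt k hkr
    by_cases hL : f (k + 1) - f k ≤ L
    · have hm : (f (k + 1) - f k - 1) ∈ Finset.range L := Finset.mem_range.2 (by omega)
      have h2 := Finset.single_le_sum (f := fun s => if f (k + 1) - f k = s + 1 then (L - s) else 0)
        (fun i _ => Nat.zero_le _) hm
      have h3 : f (k + 1) - f k = f (k + 1) - f k - 1 + 1 := by omega
      beta_reduce at h2
      rw [if_pos h3] at h2
      omega
    · omega
  have h4 := Finset.sum_le_sum hpt
  rw [Finset.sum_const, Finset.card_range, smul_eq_mul, Finset.sum_add_distrib,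
    Finset.sum_comm] at h4
  have h5 : ∑ s ∈ Finset.range L, ∑ k ∈ Finset.range r,
      (if f (k + 1) - f k = s + 1 then (L - s) else 0) ≤
      ∑ s ∈ Finset.range L, (L - s) * (2 * (s + 1)) := by
    apply Finset.sum_le_sum
    intro s _
    rw [← Finset.sum_filter, Finset.sum_const, smul_eq_mul, mul_comm]
    exact Nat.mul_le_mul_left _ (hcount s)
  have h6 := ub_poly L
  omega

end R922.HK
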