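import Pool.Agent.R922.HK.Stm

/-!
# MP_6a97ae_co, piece HK-W: window comparison
-/

set_option autoImplicit false

namespace R922.HK

theorem T_add (a b : ℕ) : T (a + b) = T a + T b + a * b := by
  induction b with
  | zero => simp [T_zero]
  | succ b ih => rw [← add_assoc, T_succ, T_succ, ih]; ring

/-- a window of length `l = x + 1` starting in a block `z ≥ l` -/
theorem W_far (N i l z k c : ℕ) (hl : 1 ≤ l) (hz : l ≤ z) (hk : k < z) (hc : c = 0 ∨ (c = 1 ∧ 1 ≤ k ∧ l < z)) :
    A N i (T z + k) + N * l + T l + c + (T z + k + l - T (N - i)) ≤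
      A N i (T z + k + l) + (T z + k - T (N - i)) := by
  rw [A_block N i (by omega) hk.le]
  rcases Nat.lt_or_ge z (k + l) with h | h
  · obtain ⟨b, hb⟩ : ∃ b, k + l = z + b := ⟨k + l - z, by omega⟩
    have e1 : T z + k + l = T (z + 1) + b := by rw [T_succ]; omega
    rw [e1, A_block N i (by omega) (show b ≤ z + 1 by omega), V_succ]
    obtain ⟨d, hd⟩ : ∃ d, z = k + d := ⟨z - k, by omega⟩
    have hl2 : l = b + d := by omega
    obtain ⟨f, hf⟩ : ∃ f, k = b + f := ⟨k - b, by omega⟩
    have h1 : T z = T k + T d + k * d := by rw [hd, T_add]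
    have h2 : T l = T b + T d + b * d := by rw [hl2, T_add]
    have h3 : k * d = b * d + f * d := by rw [hf]; ring
    have h4 : c ≤ f * d := by
      rcases hc with hc | ⟨hc, hc1, hc2⟩
      · omega
      · have : 1 ≤ f := by omega
        have : 1 ≤ d := by omega
        rw [hc]; exact Nat.mul_pos (by omega) (by omega)
    have e2 : N * (T (z + 1) + b) = N * (T z + k) + N * l := by rw [← e1]; ring
    rw [e2]
    omega
  · have e1 : T z + k + l = T z + (k + l) := by omega
    rw [e1, A_block N i (by omega) h, T_add k l]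
    have h4 : c ≤ k * l := by
      rcases hc with hc | ⟨hc, hc1, hc2⟩
      · omega
      · rw [hc]; exact Nat.mul_pos (by omega) (by omega)
    have e2 : N * (T z + (k + l)) = N * (T z + k) + N * l := by ring
    rw [e2]
    omega

theorem W_start (N i x e : ℕ) (he : e < x) :
    A N i (T x + e + (x + 1)) + (T x + e - T (N - i)) =
      A N i (T x + e) + N * (x + 1) + T x + e + (T x + e + (x + 1) - T (N - i)) := by
  have e1 : T x + e + (x + 1) = T (x + 1) + (e + 1) := by rw [T_succ]; omega
  rw [A_block N i (by omega) he.le, e1, A_block N i (by omega) (show e + 1 ≤ x + 1 by omega), V_succ, T_succ e, ← e1]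
  have e2 : N * (T x + e + (x + 1)) = N * (T x + e) + N * (x + 1) := by ring
  rw [e2]
  omega

theorem W : P_W := by
  intro N i x a m ha hax
  obtain ⟨e, he⟩ : ∃ e, e = x - a := ⟨_, rfl⟩
  rw [← he]
  have hs := W_start N i x e (by omega)
  rcases Nat.lt_or_ge x (e + m) with h | h
  · -- the window ends in a later block
    have hv1 := pos_eq (T x + e + m)
    have hv2 := J_lt (T x + e + m)
    have hz : x + 1 ≤ X (T x + e + m) := by
      have h1 := X_mono (show T (x + 1) + 0 ≤ T x + e + m by rw [T_succ]; omega)
      rw [X_block (show 0 < x + 1 by omega)] at h1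
      exact h1
    have hf := W_far N i (x + 1) (X (T x + e + m)) (J (T x + e + m)) 0 (by omega) hz hv2 (Or.inl rfl)
    rw [hv1, T_succ] at hf
    have hm := min_le_left a m
    omega
  · -- the window ends in the block `x` or at its end
    have e1 : T x + e + m = T x + (e + m) := by omega
    have e2 : T x + e + m + (x + 1) = T (x + 1) + (e + m + 1) := by rw [T_succ]; omega
    have h1 := A_block N i (show 1 ≤ x by omega) h
    have h2 := A_block N i (show 1 ≤ x + 1 by omega) (show e + m + 1 ≤ x + 1 by omega)
    rw [← e2, V_succ, T_succ (e + m)] at h2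
    rw [← e1] at h1
    have e3 : N * (T x + e + m + (x + 1)) = N * (T x + e + m) + N * (x + 1) := by ring
    rw [e3] at h2
    have hm := min_le_right a m
    omega

theorem W1 : P_W1 := by
  intro N i x m z k hx hz hk hkz hm
  have hs := W_start N i x (x - 1) (by omega)
  have hf := W_far N i (x + 1) z k 1 (by omega) (by omega) hkz (Or.inr ⟨rfl, hk, by omega⟩)
  rw [← hm, T_succ] at hf
  omega

end R922.HK
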