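import Mathlib
import Pool.Agent.R922.HK.Stm
import Pool.Agent.R922.HK.Sum
import Pool.Agent.R922.HK.UB
import Pool.Agent.R922.HK.W
import Pool.Agent.R922.HK.Rng
import Pool.Agent.R922.HK.BA1
import Pool.Agent.R922.HK.Fin
import Pool.Agent.R49.HK.Inj
import Pool.Agent.R610.HK.SetD
import Pool.Agent.R441.HK.Small
import Pool.Agent.R922.HK.BB1
import Pool.Agent.R922.HK.AAM

/-!
# MP_6a97ae_co: assembly of all the pieces
-/

namespace R922.HK

theorem main : P_final :=
  final UB (con
    (sum_main (injAA W) (injAB W) (injBA W) (injBB W) (BB1 W W1)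
      BA1lt BA1eq BA1gt BA2s
      (AAlt (injAA W)) (AAeq (injAA W)) (BAge (injBA W)) (AAodd (injAA W)) AA1s
      rngAA rngBB BB1s rngAB rngBA topBA)
    small smallN tot_le card_D max_D large)

end R922.HK
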